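import Pool.Agent.H62.Et.Defs
import Pool.Agent.H7.Bir.Open

/-!
# Qe Defs: coverings of quasi-projective varieties
-/

set_option autoImplicit false

open Topology Filter MvPolynomial

noncomputable section

namespace Pool.Agent.H62.Qe

open Pool.Agent.H17 (PN VanishesAt)
open Pool.Agent.H17EF (projVar)
open Pool.Agent.H7.Bir (vals rmap)
open Pool.Agent.H13.SM (conTan)
open Pool.Agent.H62.SA (locVar)
open Pool.Agent.H62.Et (dvals)

variable {N M : ℕ}

/-- `p` is a surjective regular map `X' → X` of projective varieties. -/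
structure IsReg (P : Ideal (MvPolynomial (Fin (N + 1)) ℂ)) (P' : Ideal (MvPolynomial (Fin (M + 1)) ℂ)) (p : PN M → PN N) : Prop where
  maps : ∀ y ∈ projVar P', p y ∈ projVar P
  surj : ∀ x ∈ projVar P, ∃ y ∈ projVar P', p y = x
  regular : ∀ y ∈ projVar P', ∃ (D : ℕ) (γ : Fin (N + 1) → MvPolynomial (Fin (M + 1)) ℂ), (∀ i, (γ i).IsHomogeneous D) ∧
    vals γ y.rep ≠ 0 ∧ ∀ y' ∈ projVar P', vals γ y'.rep ≠ 0 → p y' = rmap γ y'

/-- `p : X' → X` is surjective and regular, and over the open subset `U` of `X` it is locally injective and has local holomorphic sections. -/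
structure IsEtaleOver (P : Ideal (MvPolynomial (Fin (N + 1)) ℂ)) (P' : Ideal (MvPolynomial (Fin (M + 1)) ℂ)) {s s' : ℕ}
    (G : Fin s → MvPolynomial (Fin (N + 1)) ℂ) (G' : Fin s' → MvPolynomial (Fin (M + 1)) ℂ) (p : PN M → PN N) : Prop where
  reg : IsReg P P' p
  inv : ∀ y ∈ projVar P', p y ∈ locVar P G ↔ y ∈ locVar P' G'
  locInj : ∀ (y : Fin (M + 1) → ℂ) (hy : y ≠ 0), Projectivization.mk ℂ y hy ∈ locVar P' G' → ∀ᶠ q in 𝓝 (y, y), ∀ (h : q.1 ≠ 0) (h' : q.2 ≠ 0),
    Projectivization.mk ℂ q.1 h ∈ projVar P' → Projectivization.mk ℂ q.2 h' ∈ projVar P' →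
      p (Projectivization.mk ℂ q.1 h) = p (Projectivization.mk ℂ q.2 h') → Projectivization.mk ℂ q.1 h = Projectivization.mk ℂ q.2 h'
  locSec : ∀ (y : Fin (M + 1) → ℂ) (hy : y ≠ 0), Projectivization.mk ℂ y hy ∈ locVar P' G' →
    ∃ (x : Fin (N + 1) → ℂ) (hx : x ≠ 0) (τ : (Fin (N + 1) → ℂ) → Fin (M + 1) → ℂ), p (Projectivization.mk ℂ y hy) = Projectivization.mk ℂ x hx ∧
      AnalyticAt ℂ τ x ∧ τ x = y ∧ ∀ᶠ x' in 𝓝 x, ∀ h : x' ≠ 0, Projectivization.mk ℂ x' h ∈ projVar P →
        ∃ h' : τ x' ≠ 0, Projectivization.mk ℂ (τ x') h' ∈ projVar P' ∧ p (Projectivization.mk ℂ (τ x') h') = Projectivization.mk ℂ x' h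

/-- `p` is a surjective regular map `X' → X` of projective varieties such that the open subset `U'` of `X'` (where some `G' m` does not vanish) is the
inverse image of the open subset `U` of `X` (where some `G m` does not vanish), and whose differential is injective at every point of `U'` (for smooth
`U` and `U'` of the same dimension: `U' → U` is a finite etale covering). -/
structure IsUnramifiedOver (P : Ideal (MvPolynomial (Fin (N + 1)) ℂ)) (P' : Ideal (MvPolynomial (Fin (M + 1)) ℂ)) {s s' : ℕ}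
    (G : Fin s → MvPolynomial (Fin (N + 1)) ℂ) (G' : Fin s' → MvPolynomial (Fin (M + 1)) ℂ) (p : PN M → PN N) : Prop where
  /-- `p` maps `X'` into `X` -/
  maps : ∀ y ∈ projVar P', p y ∈ projVar P
  /-- `p` maps `X'` onto `X` -/
  surj : ∀ x ∈ projVar P, ∃ y ∈ projVar P', p y = x
  /-- the inverse image of `U` is `U'` -/
  inv : ∀ y ∈ projVar P', p y ∈ locVar P G ↔ y ∈ locVar P' G'
  /-- near every point of `X'` the map `p` is given by forms of the same degree, and over `U` a tangent vector `v` of the affine cone over `X'` which is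
  mapped to a multiple of the image of the point is a multiple of the point -/
  regular : ∀ (y : Fin (M + 1) → ℂ) (hy : y ≠ 0), Projectivization.mk ℂ y hy ∈ projVar P' →
    ∃ (D : ℕ) (γ : Fin (N + 1) → MvPolynomial (Fin (M + 1)) ℂ), (∀ i, (γ i).IsHomogeneous D) ∧ vals γ y ≠ 0 ∧
      (∀ (y' : Fin (M + 1) → ℂ) (hy' : y' ≠ 0) (h : vals γ y' ≠ 0), Projectivization.mk ℂ y' hy' ∈ projVar P' →
        p (Projectivization.mk ℂ y' hy') = Projectivization.mk ℂ (vals γ y') h) ∧
      (Projectivization.mk ℂ y hy ∈ locVar P' G' →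
        ∀ v ∈ conTan P' y, ∀ c : ℂ, dvals γ y v = c • vals γ y → ∃ a : ℂ, v = a • y)

end Pool.Agent.H62.Qe
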