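import Pool.Agent.H62.Qe.Defs
import Pool.Agent.H62.Et.Hat

/-!
# Qe Ext: extension of holomorphic maps of the punctured disc
-/

set_option autoImplicit false

open Topology Filter MvPolynomial

noncomputable section

namespace Pool.Agent.H62.Qe

open Pool.Agent.H17 (PN VanishesAt HolomorphicInto puncturedDisc vanishesAt_mk_iff)
open Pool.Agent.H62.FC (Homog)
open Pool.Agent.H17EF (projVar)
open Pool.Agent.H7.Bir (vals rmap rmap_mk vals_smul)

variable {N M : ℕ}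

/-- If `f (z ^ k)` is given by holomorphic homogeneous coordinates near `0` then `f` extends to the disc. -/
theorem extend_of_pow {f : ℂ → PN N} (hf : HolomorphicInto f puncturedDisc) {k : ℕ} (hk : 1 ≤ k) {Φ : ℂ → Fin (N + 1) → ℂ}
    (hΦ : ContinuousAt Φ 0) (hΦ0 : Φ 0 ≠ 0) (hΦf : ∀ᶠ z in 𝓝 (0 : ℂ), z ≠ 0 → ∃ h : Φ z ≠ 0, f (z ^ k) = Projectivization.mk ℂ (Φ z) h) :
    ∃ g : ℂ → PN N, HolomorphicInto g (Metric.ball 0 1) ∧ ∀ z ∈ puncturedDisc, g z = f z := by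
  classical
  obtain ⟨j, hj⟩ : ∃ j, Φ 0 j ≠ 0 := by
    by_contra hcon
    push Not at hcon
    exact hΦ0 (funext hcon)
  set S : ℂ → Fin (N + 1) → ℂ := fun w => ((f w).rep j)⁻¹ • (f w).rep with hS
  -- ratios of homogeneous coordinates
  have hSmk : ∀ (w : ℂ) (x : Fin (N + 1) → ℂ) (hx : x ≠ 0), f w = Projectivization.mk ℂ x hx → S w = (x j)⁻¹ • x := by
    intro w x hx h
    obtain ⟨a, ha⟩ := Projectivization.exists_smul_eq_mk_rep ℂ x hx
    have h1 : (f w).rep = (a : ℂ) • x := by rw [h]; exact ha.symm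
    rw [hS]
    simp only [h1, Pi.smul_apply, smul_eq_mul]
    rw [smul_smul, mul_inv, mul_comm (a : ℂ)⁻¹, mul_assoc, inv_mul_cancel₀ a.ne_zero, mul_one]
  -- a punctured neighbourhood on which the coordinates are controlled
  have h1 : ContinuousAt (fun z => (Φ z j)⁻¹ • Φ z) 0 := by
    have h2 : ContinuousAt (fun z => Φ z j) 0 := (continuous_apply j).continuousAt.comp hΦ
    exact (h2.inv₀ hj).smul hΦ
  have h2 : ∀ᶠ z in 𝓝 (0 : ℂ), ‖(Φ z j)⁻¹ • Φ z‖ < ‖(Φ 0 j)⁻¹ • Φ 0‖ + 1 :=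
    h1.norm.eventually_lt continuousAt_const (lt_add_one _)
  have h3 : ∀ᶠ z in 𝓝 (0 : ℂ), Φ z j ≠ 0 := ((continuous_apply j).continuousAt.comp hΦ).eventually_ne hj
  obtain ⟨ρ, hρ, hρb⟩ := Metric.eventually_nhds_iff_ball.1 ((hΦf.and h2).and h3)
  set r : ℝ := min (ρ ^ k) 1 with hr
  have hr0 : 0 < r := lt_min (pow_pos hρ k) one_pos
  have hroot : ∀ w ∈ Metric.ball (0 : ℂ) r \ {0}, ∃ z ∈ Metric.ball (0 : ℂ) ρ, z ≠ 0 ∧ z ^ k = w := by
    intro w hw
    obtain ⟨z, hz⟩ := IsAlgClosed.exists_pow_nat_eq w (by omega : 0 < k)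
    refine ⟨z, ?_, ?_, hz⟩
    · rw [mem_ball_zero_iff]
      by_contra hcon
      push Not at hcon
      have h4 : ρ ^ k ≤ ‖z‖ ^ k := pow_le_pow_left₀ hρ.le hcon k
      rw [← norm_pow, hz] at h4
      have h5 : ‖w‖ < r := by
        rw [← mem_ball_zero_iff]
        exact hw.1
      exact absurd (lt_of_lt_of_le h5 (min_le_left _ _)) (not_lt.2 h4)
    · rintro rfl
      apply hw.2
      rw [Set.mem_singleton_iff, ← hz, zero_pow (by omega)]
  have hmem : ∀ w ∈ Metric.ball (0 : ℂ) r \ {0}, w ∈ puncturedDisc := fun w hw =>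
    ⟨Metric.ball_subset_ball (min_le_right _ _) hw.1, hw.2⟩
  have hval : ∀ w ∈ Metric.ball (0 : ℂ) r \ {0}, (f w).rep j ≠ 0 ∧ ‖S w‖ ≤ ‖(Φ 0 j)⁻¹ • Φ 0‖ + 1 := by
    intro w hw
    obtain ⟨z, hz, hz0, hzw⟩ := hroot w hw
    obtain ⟨⟨h4, h5⟩, h6⟩ := hρb z hz
    obtain ⟨h7, h8⟩ := h4 hz0
    rw [hzw] at h8
    refine ⟨?_, ?_⟩
    · obtain ⟨a, ha⟩ := Projectivization.exists_smul_eq_mk_rep ℂ (Φ z) h7
      have h9 : (f w).rep = (a : ℂ) • Φ z := by rw [h8]; exact ha.symm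
      rw [h9]
      exact mul_ne_zero a.ne_zero h6
    · rw [hSmk w _ h7 h8]
      exact h5.le
  have hd : DifferentiableOn ℂ S (Metric.ball (0 : ℂ) r \ {0}) := by
    intro w hw
    obtain ⟨φ, h4, h5⟩ := hf w (hmem w hw)
    have h6 : φ w j ≠ 0 := by
      obtain ⟨h7, h8⟩ := h5.self_of_nhds
      obtain ⟨a, ha⟩ := Projectivization.exists_smul_eq_mk_rep ℂ (φ w) h7
      have h9 : (f w).rep = (a : ℂ) • φ w := by rw [h8]; exact ha.symm
      have h10 := (hval w hw).1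
      rw [h9] at h10
      exact right_ne_zero_of_mul h10
    have h7 : AnalyticAt ℂ (fun z => (φ z j)⁻¹ • φ z) w := by
      have h8 : AnalyticAt ℂ (fun z => φ z j) w := analyticAt_pi_iff.1 h4 j
      exact (h8.inv h6).smul h4
    refine DifferentiableAt.differentiableWithinAt (h7.differentiableAt.congr_of_eventuallyEq ?_)
    filter_upwards [h5] with z hz
    obtain ⟨h8, h9⟩ := hz
    exact hSmk z _ h8 h9
  have hb : BddAbove (norm ∘ S '' (Metric.ball (0 : ℂ) r \ {0})) := by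
    refine ⟨‖(Φ 0 j)⁻¹ • Φ 0‖ + 1, ?_⟩
    rintro _ ⟨w, hw, rfl⟩
    exact (hval w hw).2
  have hu := Complex.differentiableOn_update_limUnder_of_bddAbove (Metric.ball_mem_nhds (0 : ℂ) hr0) hd hb
  set S' : ℂ → Fin (N + 1) → ℂ := Function.update S 0 (limUnder (𝓝[≠] 0) S) with hS'
  have hS'a : AnalyticAt ℂ S' 0 := hu.analyticAt (Metric.ball_mem_nhds (0 : ℂ) hr0)
  have hS'eq : ∀ w, w ≠ 0 → S' w = S w := fun w hw => Function.update_of_ne hw _ _
  have hS'j : ∀ᶠ w in 𝓝[≠] (0 : ℂ), S' w j = 1 := by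
    have h4 : Metric.ball (0 : ℂ) r \ {0} ∈ 𝓝[≠] (0 : ℂ) := sdiff_mem_nhdsWithin_compl (Metric.ball_mem_nhds _ hr0) _
    filter_upwards [h4] with w hw
    rw [hS'eq w hw.2]
    exact inv_mul_cancel₀ (hval w hw).1
  have hS'0 : S' 0 j = 1 := by
    have h4 : Tendsto (fun w => S' w j) (𝓝[≠] (0 : ℂ)) (𝓝 (S' 0 j)) :=
      ((continuous_apply j).continuousAt.comp hS'a.continuousAt).tendsto.mono_left nhdsWithin_le_nhds
    have h5 : Tendsto (fun w => S' w j) (𝓝[≠] (0 : ℂ)) (𝓝 1) := tendsto_const_nhds.congr' (hS'j.mono fun w hw => hw.symm)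
    exact tendsto_nhds_unique h4 h5
  have hne : S' 0 ≠ 0 := by
    intro h
    rw [h] at hS'0
    exact zero_ne_one hS'0
  have hS'ne : ∀ᶠ w in 𝓝 (0 : ℂ), S' w ≠ 0 := hS'a.continuousAt.eventually_ne hne
  refine ⟨fun w => if w = 0 then Projectivization.mk ℂ (S' 0) hne else f w, fun w₀ hw₀ => ?_, fun w hw => if_neg hw.2⟩
  by_cases h0 : w₀ = 0
  · subst h0
    refine ⟨S', hS'a, ?_⟩
    filter_upwards [hS'ne, Metric.ball_mem_nhds (0 : ℂ) hr0] with w h4 h5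
    refine ⟨h4, ?_⟩
    by_cases hw : w = 0
    · subst hw
      rw [if_pos rfl]
    · rw [if_neg hw, ← Projectivization.mk_rep (f w), Projectivization.mk_eq_mk_iff']
      have h6 := (hval w ⟨h5, hw⟩).1
      refine ⟨(f w).rep j, ?_⟩
      rw [hS'eq w hw]
      show (f w).rep j • (((f w).rep j)⁻¹ • (f w).rep) = (f w).rep
      rw [smul_smul, mul_inv_cancel₀ h6, one_smul]
  · obtain ⟨φ, h4, h5⟩ := hf w₀ ⟨hw₀, h0⟩
    refine ⟨φ, h4, ?_⟩
    filter_upwards [h5, isOpen_ne.mem_nhds h0] with w h6 h7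
    rw [if_neg h7]
    exact h6

/-- If a lift `g` of `f (z ^ k)` extends to the disc, then `f` extends. -/
theorem extend_of_lift {P : Ideal (MvPolynomial (Fin (N + 1)) ℂ)} {P' : Ideal (MvPolynomial (Fin (M + 1)) ℂ)} {p : PN M → PN N}
    (hp : IsReg P P' p) {f : ℂ → PN N} (hf : HolomorphicInto f puncturedDisc) {k : ℕ} (hk : 1 ≤ k) {g ĝ : ℂ → PN M}
    (hgX : ∀ z ∈ puncturedDisc, g z ∈ projVar P') (hgf : ∀ z ∈ puncturedDisc, p (g z) = f (z ^ k))
    (hĝ : HolomorphicInto ĝ (Metric.ball 0 1)) (hgg : ∀ z ∈ puncturedDisc, ĝ z = g z) :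
    ∃ g₀ : ℂ → PN N, HolomorphicInto g₀ (Metric.ball 0 1) ∧ ∀ z ∈ puncturedDisc, g₀ z = f z := by
  obtain ⟨ψ, hψ, hψg⟩ := hĝ 0 (Metric.mem_ball_self one_pos)
  obtain ⟨hψ0, hψ0g⟩ := hψg.self_of_nhds
  have hD : ∀ᶠ z in 𝓝 (0 : ℂ), z ≠ 0 → z ∈ puncturedDisc := by
    filter_upwards [Metric.ball_mem_nhds (0 : ℂ) one_pos] with z h1 h2
    exact ⟨h1, h2⟩
  -- the value at `0` belongs to `X'`
  have h0X : ĝ 0 ∈ projVar P' := by
    intro Q hQ n hn
    rw [hψ0g, vanishesAt_mk_iff hn]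
    have h1 : Tendsto (fun z => eval (ψ z) Q) (𝓝[≠] (0 : ℂ)) (𝓝 (eval (ψ 0) Q)) := by
      have h2 : ContinuousAt (fun z => eval (ψ z) Q) 0 :=
        ContinuousAt.comp (g := fun x => eval x Q) (f := ψ) (MvPolynomial.continuous_eval Q).continuousAt hψ.continuousAt
      exact h2.tendsto.mono_left nhdsWithin_le_nhds
    have h2 : Tendsto (fun z => eval (ψ z) Q) (𝓝[≠] (0 : ℂ)) (𝓝 0) := by
      refine tendsto_const_nhds.congr' ?_
      rw [EventuallyEq, eventually_nhdsWithin_iff]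
      filter_upwards [hψg, hD] with z h3 h4 h5
      obtain ⟨h6, h7⟩ := h3
      have h8 := hgX z (h4 h5)
      rw [← hgg z (h4 h5), h7] at h8
      have h9 := h8 Q hQ n hn
      rw [vanishesAt_mk_iff hn] at h9
      exact h9.symm
    exact tendsto_nhds_unique h1 h2
  obtain ⟨D, γ, hγ, hγ0, hγp⟩ := hp.regular (ĝ 0) h0X
  have hrep : ∀ (x : Fin (M + 1) → ℂ) (hx : x ≠ 0), vals γ (Projectivization.mk ℂ x hx).rep ≠ 0 ↔ vals γ x ≠ 0 := by
    intro x hx
    obtain ⟨a, ha⟩ := Projectivization.exists_smul_eq_mk_rep ℂ x hx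
    have h1 : (Projectivization.mk ℂ x hx).rep = (a : ℂ) • x := ha.symm
    rw [h1, vals_smul hγ]
    constructor
    · intro h h2
      rw [h2, smul_zero] at h
      exact h rfl
    · exact fun h => smul_ne_zero (pow_ne_zero _ a.ne_zero) h
  have hv0 : vals γ (ψ 0) ≠ 0 := by
    rw [← hrep _ hψ0, ← hψ0g]
    exact hγ0
  have hvc : ContinuousAt (fun z => vals γ (ψ z)) 0 := by
    have hc : Continuous fun x : Fin (M + 1) → ℂ => vals γ x := continuous_pi fun i => MvPolynomial.continuous_eval (γ i)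
    exact ContinuousAt.comp (g := fun x => vals γ x) (f := ψ) hc.continuousAt hψ.continuousAt
  refine extend_of_pow hf hk hvc hv0 ?_
  filter_upwards [hψg, hD, hvc.eventually_ne hv0] with z h1 h2 h3 h4
  obtain ⟨h5, h6⟩ := h1
  refine ⟨h3, ?_⟩
  have h7 : ĝ z ∈ projVar P' := by
    rw [hgg z (h2 h4)]
    exact hgX z (h2 h4)
  have h8 : vals γ (ĝ z).rep ≠ 0 := by
    rw [h6, hrep _ h5]
    exact h3
  rw [← hgf z (h2 h4), ← hgg z (h2 h4), hγp _ h7 h8, h6, rmap_mk hγ h5 h3]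

end Pool.Agent.H62.Qe
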