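import Pool.Agent.H62.Qe.Loc

/-!
# Qe Lift: entire curves and holomorphic maps of the punctured disc in `U` lift to a covering which is etale over `U`
-/

set_option autoImplicit false

open Topology Filter MvPolynomial

noncomputable section

namespace Pool.Agent.H62.Qe

open Pool.Agent.H17 (PN VanishesAt HolomorphicInto puncturedDisc)
open Pool.Agent.H62.FC (Homog)
open Pool.Agent.H17EF (projVar)
open Pool.Agent.H62.EF (MN)
open Pool.Agent.H62.SA (locVar)
open Pool.Agent.H62.Et (pn pn_mk pn_injective pn_near pn_continuousAt pn_continuous isCompact_pn)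

variable {N M : ℕ} {P : Ideal (MvPolynomial (Fin (N + 1)) ℂ)} {P' : Ideal (MvPolynomial (Fin (M + 1)) ℂ)} {p : PN M → PN N}
  {s s' : ℕ} {G : Fin s → MvPolynomial (Fin (N + 1)) ℂ} {G' : Fin s' → MvPolynomial (Fin (M + 1)) ℂ}

/-- a continuous lift of a holomorphic map is holomorphic -/
theorem holomorphicAt_of_continuousAt (hp : IsEtaleOver P P' G G' p) {f : ℂ → PN N} {z₀ : ℂ}
    (hf : ∃ φ : ℂ → Fin (N + 1) → ℂ, AnalyticAt ℂ φ z₀ ∧ ∀ᶠ z in 𝓝 z₀, ∃ h : φ z ≠ 0, f z = Projectivization.mk ℂ (φ z) h)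
    {g : ℂ → PN M} (hg : ContinuousAt (fun z => pn (g z)) z₀) (hgU : g z₀ ∈ locVar P' G') (hgX : ∀ᶠ z in 𝓝 z₀, g z ∈ projVar P')
    (hgf : ∀ᶠ z in 𝓝 z₀, p (g z) = f z) :
    ∃ φ : ℂ → Fin (M + 1) → ℂ, AnalyticAt ℂ φ z₀ ∧ ∀ᶠ z in 𝓝 z₀, ∃ h : φ z ≠ 0, g z = Projectivization.mk ℂ (φ z) h := by
  have hy₀ : (g z₀).rep ≠ 0 := Projectivization.rep_nonzero _
  have hmk : Projectivization.mk ℂ (g z₀).rep hy₀ = g z₀ := Projectivization.mk_rep _
  obtain ⟨x, hx, τ, h1, hτ, hτx, hsec⟩ := hp.locSec (g z₀).rep hy₀ (by rw [hmk]; exact hgU)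
  obtain ⟨φ, hφ, hφf⟩ := hf
  obtain ⟨hφ0, hφz⟩ := hφf.self_of_nhds
  have h2 : Projectivization.mk ℂ x hx = Projectivization.mk ℂ (φ z₀) hφ0 := by
    rw [← h1, hmk, hgf.self_of_nhds, hφz]
  rw [Projectivization.mk_eq_mk_iff'] at h2
  obtain ⟨c, hc⟩ := h2
  have hc0 : c ≠ 0 := by
    rintro rfl
    rw [zero_smul] at hc
    exact hx hc.symm
  have hφ' : AnalyticAt ℂ (fun z => c • φ z) z₀ := AnalyticAt.fun_const_smul hφ
  have hφc : Tendsto (fun z => c • φ z) (𝓝 z₀) (𝓝 x) := by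
    have h3 := hφ'.continuousAt.tendsto
    rwa [hc] at h3
  have hτc : Tendsto (fun z => τ (c • φ z)) (𝓝 z₀) (𝓝 (g z₀).rep) := by
    have h3 := hτ.continuousAt.tendsto
    rw [hτx] at h3
    exact h3.comp hφc
  refine ⟨fun z => τ (c • φ z), ?_, ?_⟩
  · exact hτ.fun_comp_of_eq hφ' hc
  · have hinj := hp.locInj (g z₀).rep hy₀ (by rw [hmk]; exact hgU)
    rw [nhds_prod_eq, Filter.eventually_iff, Filter.mem_prod_self_iff] at hinj
    obtain ⟨U, hU, hUU⟩ := hinj
    obtain ⟨δ, hδ, hnear⟩ := pn_near hy₀ hU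
    rw [hmk] at hnear
    have h4 : ∀ᶠ z in 𝓝 z₀, dist (pn (g z)) (pn (g z₀)) < δ :=
      hg.tendsto.eventually (Metric.ball_mem_nhds _ hδ)
    filter_upwards [hφf, hφc.eventually hsec, hτc.eventually hU, h4, hgX, hgf] with z h5 h6 h7 h8 hXz hfz
    obtain ⟨h9, h10⟩ := h5
    have h11 : c • φ z ≠ 0 := smul_ne_zero hc0 h9
    have h12 : Projectivization.mk ℂ (c • φ z) h11 = f z := by
      rw [h10, Projectivization.mk_eq_mk_iff']
      exact ⟨c, rfl⟩
    obtain ⟨h13, h14, h15⟩ := h6 h11 (by rw [h12, ← hfz]; exact hp.reg.maps _ hXz)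
    obtain ⟨x', hx'U, hx', hx'g⟩ := hnear (g z) h8
    refine ⟨h13, ?_⟩
    rw [hx'g]
    refine hUU (Set.mk_mem_prod hx'U h7) hx' h13 ?_ h14 ?_
    · rw [← hx'g]
      exact hXz
    · rw [← hx'g, hfz, h15, h12]

theorem lift_entire (hP' : Homog P') (hp : IsEtaleOver P P' G G' p) {f : ℂ → PN N} (hf : HolomorphicInto f Set.univ)
    (hfU : ∀ z, f z ∈ locVar P G) : ∃ g : ℂ → PN M, HolomorphicInto g Set.univ ∧ (∀ z, g z ∈ locVar P' G') ∧ ∀ z, p (g z) = f z := by
  obtain ⟨ph, hph, hcont, hsurj, hloc⟩ := exists_hat hp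
  have : CompactSpace (pn '' projVar P') := isCompact_iff_compactSpace.mp (isCompact_pn hP')
  have hfc : Continuous fun z : ℂ => (⟨pn (f z), Set.mem_image_of_mem pn (hfU z).1⟩ : pn '' projVar P) :=
    Continuous.subtype_mk (pn_continuous hf) _
  obtain ⟨e₀, he₀⟩ := hsurj ⟨pn (f 0), Set.mem_image_of_mem pn (hfU 0).1⟩
  obtain ⟨g₁, hg₁, -, hg₁f⟩ := exists_lift_plane (s := {b : pn '' projVar P | (b : MN N) ∈ pn '' locVar P G}) hcont hloc hfc
    (fun z => Set.mem_image_of_mem pn (hfU z)) he₀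
  have hex : ∀ z : ℂ, ∃ y : PN M, y ∈ projVar P' ∧ pn y = (g₁ z : MN M) := fun z => (g₁ z).2
  choose g hgX hgG using hex
  have hgf : ∀ z, p (g z) = f z := by
    intro z
    apply pn_injective
    have h1 := hph (g z) (hgX z)
    have h2 : (⟨pn (g z), Set.mem_image_of_mem pn (hgX z)⟩ : pn '' projVar P') = g₁ z := Subtype.ext (hgG z)
    rw [h2, hg₁f z] at h1
    exact (congrArg Subtype.val h1).symm
  have hgU : ∀ z, g z ∈ locVar P' G' := fun z => (hp.inv _ (hgX z)).1 (by rw [hgf z]; exact hfU z)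
  have hgc : Continuous fun z => pn (g z) := by
    have h3 : (fun z => pn (g z)) = fun z => (g₁ z : MN M) := funext hgG
    rw [h3]
    exact continuous_subtype_val.comp hg₁
  exact ⟨g, fun z₀ _ => holomorphicAt_of_continuousAt hp (hf z₀ (Set.mem_univ _)) hgc.continuousAt (hgU z₀) (Eventually.of_forall hgX)
    (Eventually.of_forall hgf), hgU, hgf⟩

/-- the homeomorphism of the plane onto the left half plane -/
private def hp1 (w : ℂ) : ℂ := -Real.exp w.re + w.im * Complex.I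

private def hp2 (v : ℂ) : ℂ := Real.log (-v.re) + v.im * Complex.I

private theorem hp1_re (w : ℂ) : (hp1 w).re = -Real.exp w.re := by
  unfold hp1
  rw [Complex.add_re, Complex.neg_re, Complex.ofReal_re, Complex.re_ofReal_mul, Complex.I_re, mul_zero, add_zero]

private theorem hp1_im (w : ℂ) : (hp1 w).im = w.im := by
  unfold hp1
  rw [Complex.add_im, Complex.neg_im, Complex.ofReal_im, Complex.im_ofReal_mul, Complex.I_im, mul_one, neg_zero, zero_add]

private theorem hp1_hp2 {v : ℂ} (hv : v.re < 0) : hp1 (hp2 v) = v := by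
  have h1 : (hp2 v).re = Real.log (-v.re) := by
    unfold hp2
    rw [Complex.add_re, Complex.ofReal_re, Complex.re_ofReal_mul, Complex.I_re, mul_zero, add_zero]
  have h2 : (hp2 v).im = v.im := by
    unfold hp2
    rw [Complex.add_im, Complex.ofReal_im, Complex.im_ofReal_mul, Complex.I_im, mul_one, zero_add]
  apply Complex.ext
  · rw [hp1_re, h1, Real.exp_log (by linarith), neg_neg]
  · rw [hp1_im, h2]

private theorem hp1_add (w : ℂ) : hp1 (w + 2 * Real.pi * Complex.I) = hp1 w + 2 * Real.pi * Complex.I := by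
  have h1 : (2 * Real.pi * Complex.I : ℂ).re = 0 := by simp
  apply Complex.ext
  · rw [hp1_re, Complex.add_re, Complex.add_re, h1, hp1_re, add_zero, add_zero]
  · rw [hp1_im, Complex.add_im, Complex.add_im, hp1_im]

private theorem hp2_add (v : ℂ) (n : ℤ) : hp2 (v + n * (2 * Real.pi * Complex.I)) = hp2 v + n * (2 * Real.pi * Complex.I) := by
  have h1 : (n * (2 * Real.pi * Complex.I) : ℂ).re = 0 := by simp
  unfold hp2
  rw [Complex.add_re, h1, add_zero, Complex.add_im]
  push_cast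
  have h2 : (((n * (2 * Real.pi * Complex.I) : ℂ).im : ℝ) : ℂ) * Complex.I = n * (2 * Real.pi * Complex.I) := by
    have h3 := Complex.re_add_im (n * (2 * Real.pi * Complex.I) : ℂ)
    rw [h1, Complex.ofReal_zero, zero_add] at h3
    exact h3
  rw [add_mul, h2]
  ring

private theorem continuous_hp1 : Continuous hp1 := by
  unfold hp1
  fun_prop

private theorem continuousAt_hp2 {v : ℂ} (hv : v.re < 0) : ContinuousAt hp2 v := by
  unfold hp2
  refine ContinuousAt.add ?_ ?_
  · refine Complex.continuous_ofReal.continuousAt.comp ?_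
    refine ContinuousAt.comp (f := fun v : ℂ => -v.re) (g := Real.log) (Real.continuousAt_log (by linarith)) ?_
    fun_prop
  · fun_prop

theorem pn_continuousOn {f : ℂ → PN N} {D : Set ℂ} (hf : HolomorphicInto f D) {z : ℂ} (hz : z ∈ D) : ContinuousAt (fun z => pn (f z)) z := by
  obtain ⟨φ, h1, h2⟩ := hf z hz
  exact pn_continuousAt h1.continuousAt h2

private theorem exp_mem {v : ℂ} (hv : v.re < 0) : Complex.exp v ∈ puncturedDisc := by
  refine ⟨?_, Complex.exp_ne_zero v⟩
  rw [mem_ball_zero_iff, Complex.norm_exp]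
  exact Real.exp_lt_one_iff.2 hv

theorem lift_punctured (hP' : Homog P') (hp : IsEtaleOver P P' G G' p) {f : ℂ → PN N} (hf : HolomorphicInto f puncturedDisc)
    (hfU : ∀ z ∈ puncturedDisc, f z ∈ locVar P G) : ∃ (k : ℕ) (g : ℂ → PN M), 1 ≤ k ∧ HolomorphicInto g puncturedDisc ∧
      (∀ z ∈ puncturedDisc, g z ∈ locVar P' G') ∧ ∀ z ∈ puncturedDisc, p (g z) = f (z ^ k) := by
  obtain ⟨ph, hph, hcont, hsurj, hloc⟩ := exists_hat hp
  have : CompactSpace (pn '' projVar P') := isCompact_iff_compactSpace.mp (isCompact_pn hP')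
  have hneg : ∀ w, (hp1 w).re < 0 := fun w => by
    rw [hp1_re]
    exact neg_lt_zero.2 (Real.exp_pos _)
  have hmem : ∀ w, Complex.exp (hp1 w) ∈ puncturedDisc := fun w => exp_mem (hneg w)
  have hFc : Continuous fun w : ℂ => pn (f (Complex.exp (hp1 w))) := by
    rw [continuous_iff_continuousAt]
    intro w
    exact ContinuousAt.comp (g := fun z => pn (f z)) (f := fun w => Complex.exp (hp1 w)) (pn_continuousOn hf (hmem w))
      (Complex.continuous_exp.comp continuous_hp1).continuousAt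
  have hfc : Continuous fun w : ℂ => (⟨pn (f (Complex.exp (hp1 w))), Set.mem_image_of_mem pn (hfU _ (hmem w)).1⟩ : pn '' projVar P) :=
    Continuous.subtype_mk hFc _
  have hper : ∀ w : ℂ, (⟨pn (f (Complex.exp (hp1 (w + 2 * Real.pi * Complex.I)))), Set.mem_image_of_mem pn (hfU _ (hmem _)).1⟩ : pn '' projVar P) =
      ⟨pn (f (Complex.exp (hp1 w))), Set.mem_image_of_mem pn (hfU _ (hmem w)).1⟩ := by
    intro w
    apply Subtype.ext
    show pn (f (Complex.exp (hp1 (w + 2 * Real.pi * Complex.I)))) = pn (f (Complex.exp (hp1 w)))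
    rw [hp1_add, Complex.exp_periodic]
  obtain ⟨g₁, k, hg₁, hg₁f, hk, hg₁k⟩ := exists_lift_periodic (s := {b : pn '' projVar P | (b : MN N) ∈ pn '' locVar P G}) hcont hsurj hloc hfc
    (fun w => Set.mem_image_of_mem pn (hfU _ (hmem w))) hper
  have hg₁p : ∀ (n : ℤ) (w : ℂ), g₁ (w + n * (k * (2 * Real.pi * Complex.I))) = g₁ w := fun n w =>
    Function.Periodic.int_mul (f := g₁) (c := k * (2 * Real.pi * Complex.I)) hg₁k n w
  have hex : ∀ w : ℂ, ∃ y : PN M, y ∈ projVar P' ∧ pn y = (g₁ w : MN M) := fun w => (g₁ w).2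
  choose g₂ hg₂X hg₂G using hex
  have hg₂f : ∀ w, p (g₂ w) = f (Complex.exp (hp1 w)) := by
    intro w
    apply pn_injective
    have h1 := hph (g₂ w) (hg₂X w)
    have h2 : (⟨pn (g₂ w), Set.mem_image_of_mem pn (hg₂X w)⟩ : pn '' projVar P') = g₁ w := Subtype.ext (hg₂G w)
    rw [h2, hg₁f w] at h1
    exact (congrArg Subtype.val h1).symm
  have hkr : (0 : ℝ) < k := by exact_mod_cast hk
  have hre : ∀ z ∈ puncturedDisc, (k * Complex.log z).re < 0 := by
    intro z hz
    have h1 : (k * Complex.log z).re = k * Real.log ‖z‖ := by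
      rw [← Complex.ofReal_natCast, Complex.re_ofReal_mul, Complex.log_re]
    rw [h1]
    have h2 : ‖z‖ < 1 := by
      rw [← mem_ball_zero_iff]
      exact hz.1
    have h3 : 0 < ‖z‖ := norm_pos_iff.2 hz.2
    exact mul_neg_of_pos_of_neg hkr (Real.log_neg h3 h2)
  have hgX : ∀ z, g₂ (hp2 (k * Complex.log z)) ∈ projVar P' := fun z => hg₂X _
  have hgf : ∀ z ∈ puncturedDisc, p (g₂ (hp2 (k * Complex.log z))) = f (z ^ k) := by
    intro z hz
    rw [hg₂f, hp1_hp2 (hre z hz), Complex.exp_nat_mul, Complex.exp_log hz.2]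
  have hpow : ∀ z ∈ puncturedDisc, z ^ k ∈ puncturedDisc := by
    intro z hz
    refine ⟨?_, pow_ne_zero k hz.2⟩
    rw [mem_ball_zero_iff, norm_pow]
    exact pow_lt_one₀ (norm_nonneg z) (by rw [← mem_ball_zero_iff]; exact hz.1) (by omega)
  have hgU : ∀ z ∈ puncturedDisc, g₂ (hp2 (k * Complex.log z)) ∈ locVar P' G' := fun z hz =>
    (hp.inv _ (hgX z)).1 (by rw [hgf z hz]; exact hfU _ (hpow z hz))
  have hopen : IsOpen puncturedDisc := Metric.isOpen_ball.sdiff isClosed_singleton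
  refine ⟨k, fun z => g₂ (hp2 (k * Complex.log z)), hk, fun z₀ hz₀ => ?_, hgU, hgf⟩
  have hz0 : z₀ ≠ 0 := hz₀.2
  refine holomorphicAt_of_continuousAt hp (f := fun z => f (z ^ k)) ?_ ?_ (hgU z₀ hz₀) (Eventually.of_forall hgX) ?_
  · obtain ⟨φ, h1, h2⟩ := hf (z₀ ^ k) (hpow z₀ hz₀)
    have h3 : AnalyticAt ℂ (fun z : ℂ => z ^ k) z₀ := analyticAt_id.pow k
    exact ⟨fun z => φ (z ^ k), AnalyticAt.comp (g := φ) (f := fun z : ℂ => z ^ k) h1 h3, h3.continuousAt.tendsto.eventually h2⟩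
  · -- continuity
    have h1 : (fun z => pn (g₂ (hp2 (k * Complex.log z)))) = fun z => (g₁ (hp2 (k * Complex.log z)) : MN M) := funext fun z => hg₂G _
    rw [h1]
    have h2 : ContinuousAt (fun z => (g₁ (hp2 (k * (Complex.log (z / z₀) + Complex.log z₀))) : MN M)) z₀ := by
      have h3 : ContinuousAt (fun z : ℂ => k * (Complex.log (z / z₀) + Complex.log z₀)) z₀ := by
        refine continuousAt_const.mul (ContinuousAt.add ?_ continuousAt_const)
        refine ContinuousAt.clog ?_ ?_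
        · exact continuousAt_id.div continuousAt_const hz0
        · rw [div_self hz0]
          exact Complex.one_mem_slitPlane
      have h4 : (k * (Complex.log (z₀ / z₀) + Complex.log z₀)).re < 0 := by
        rw [div_self hz0, Complex.log_one, zero_add]
        exact hre z₀ hz₀
      have h5 : ContinuousAt (fun z : ℂ => hp2 (k * (Complex.log (z / z₀) + Complex.log z₀))) z₀ :=
        ContinuousAt.comp (g := hp2) (f := fun z : ℂ => k * (Complex.log (z / z₀) + Complex.log z₀)) (continuousAt_hp2 h4) h3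
      exact ContinuousAt.comp (g := fun w => (g₁ w : MN M)) (f := fun z : ℂ => hp2 (k * (Complex.log (z / z₀) + Complex.log z₀)))
        (continuous_subtype_val.comp hg₁).continuousAt h5
    refine h2.congr ?_
    filter_upwards [isOpen_ne.mem_nhds hz0] with z hz
    have hz' : z ≠ 0 := hz
    have h3 : Complex.exp (Complex.log (z / z₀) + Complex.log z₀) = Complex.exp (Complex.log z) := by
      rw [Complex.exp_add, Complex.exp_log (div_ne_zero hz' hz0), Complex.exp_log hz0, Complex.exp_log hz', div_mul_cancel₀ _ hz0]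
    obtain ⟨n, hn⟩ := Complex.exp_eq_exp_iff_exists_int.1 h3
    rw [hn, mul_add]
    have h4 : (k : ℂ) * (n * (2 * Real.pi * Complex.I)) = ((k * n : ℤ) : ℂ) * (2 * Real.pi * Complex.I) := by
      push_cast
      ring
    rw [h4, hp2_add]
    have h5 : ((k * n : ℤ) : ℂ) * (2 * Real.pi * Complex.I) = n * (k * (2 * Real.pi * Complex.I)) := by
      push_cast
      ring
    rw [h5, hg₁p]
  · filter_upwards [hopen.mem_nhds hz₀] with z hz
    exact hgf z hz

end Pool.Agent.H62.Qe
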