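import Pool.Agent.H62.Et.Hat
import Pool.Agent.H62.Qe.Defs
import Pool.Agent.H17EF.Closed
import Pool.Agent.H19OL.Norm

/-!
# Qe Dom: the forms which define a regular map (adapted from `Pool.Agent.H62.Et.Dom`)
-/

set_option autoImplicit false

open Topology Filter MvPolynomial

noncomputable section

namespace Pool.Agent.H62.Qe

open Pool.Agent.H17 (PN VanishesAt HolomorphicInto)
open Pool.Agent.H62.FC (Homog)
open Pool.Agent.H17EF (projVar)
open Pool.Agent.H62.EF (MN)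
open Pool.Agent.H62.Et (pn pn_mk pn_injective pn_near pn_continuousAt pn_continuous isCompact_pn)
open Pool.Agent.H17LG.Variety (FunField)
open Pool.Agent.H17 (vanishesAt_mk_iff)
open Pool.Agent.H7.Bir (vals rmap)

variable {N M : ℕ} {P : Ideal (MvPolynomial (Fin (N + 1)) ℂ)} {P' : Ideal (MvPolynomial (Fin (M + 1)) ℂ)} {p : PN M → PN N}

private theorem Dom_aeval_homog {γ : Fin (N + 1) → MvPolynomial (Fin (M + 1)) ℂ} {D : ℕ} (hγ : ∀ i, (γ i).IsHomogeneous D) {n : ℕ}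
    {Q : MvPolynomial (Fin (N + 1)) ℂ} (hQ : Q.IsHomogeneous n) : (aeval γ Q).IsHomogeneous (D * n) :=
  hQ.aeval _ hγ

private theorem Dom_smul {n : ℕ} {Q : MvPolynomial (Fin (N + 1)) ℂ} (hQ : Q.IsHomogeneous n) (c : ℂ) (x : Fin (N + 1) → ℂ) :
    eval (c • x) Q = c ^ n * eval x Q :=
  Pool.Agent.H17BP.eval_smul_form hQ c x

/-- two systems of forms which represent `p` are proportional at every point -/
private theorem Dom_prop {γ γ' : Fin (N + 1) → MvPolynomial (Fin (M + 1)) ℂ}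
    (hrep : ∀ y ∈ projVar P', vals γ y.rep ≠ 0 → p y = rmap γ y) (hrep' : ∀ y ∈ projVar P', vals γ' y.rep ≠ 0 → p y = rmap γ' y)
    {y : PN M} (hy : y ∈ projVar P') (i j : Fin (N + 1)) :
    eval y.rep (γ i) * eval y.rep (γ' j) = eval y.rep (γ j) * eval y.rep (γ' i) := by
  by_cases h1 : vals γ y.rep = 0
  · have h2 : ∀ i, eval y.rep (γ i) = 0 := fun i => congrFun h1 i
    rw [h2 i, h2 j]
    ring
  by_cases h3 : vals γ' y.rep = 0
  · have h2 : ∀ i, eval y.rep (γ' i) = 0 := fun i => congrFun h3 i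
    rw [h2 i, h2 j]
    ring
  have h4 : rmap γ y = rmap γ' y := by
    rw [← hrep y hy h1, ← hrep' y hy h3]
  unfold Pool.Agent.H7.Bir.rmap at h4
  rw [dif_pos h1, dif_pos h3, Projectivization.mk_eq_mk_iff'] at h4
  obtain ⟨a, ha⟩ := h4
  have h5 : ∀ i, eval y.rep (γ i) = a * eval y.rep (γ' i) := fun i => (congrFun ha i).symm
  rw [h5 i, h5 j]
  ring

/-- forms which represent `p` near some point define a dominant rational map -/
theorem dominant [P.IsPrime] [P'.IsPrime] (hP : Homog P) (hP' : Homog P') (hX : ∃ i, (X i : MvPolynomial (Fin (N + 1)) ℂ) ∉ P)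
    (hp : IsReg P P' p) {D : ℕ} {γ : Fin (N + 1) → MvPolynomial (Fin (M + 1)) ℂ} (hγ : ∀ i, (γ i).IsHomogeneous D)
    (hrep : ∀ y ∈ projVar P', vals γ y.rep ≠ 0 → p y = rmap γ y) (hne : ∃ y ∈ projVar P', vals γ y.rep ≠ 0) (n : ℕ)
    (Q : MvPolynomial (Fin (N + 1)) ℂ) (hQ : Q.IsHomogeneous n) : aeval γ Q ∈ P' ↔ Q ∈ P := by
  obtain ⟨y₀, hy₀, hne⟩ := hne
  have hX' := Pool.Agent.H17EF.exists_coord hy₀
  constructor
  · intro h
    by_contra hQP
    obtain ⟨x, hx, hxQ⟩ := Pool.Agent.H17EF.exists_point hP hX hQP hQ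
    obtain ⟨y', hy', rfl⟩ := hp.surj x hx
    obtain ⟨D', γ', hγ', hne', hrep'⟩ := hp.regular y' hy'
    obtain ⟨j, hj⟩ : ∃ j, eval y₀.rep (γ j) ≠ 0 := by
      by_contra hcon
      push Not at hcon
      exact hne (funext hcon)
    have hjP : γ j ∉ P' := fun h1 => hj (hy₀ _ h1 D (hγ j))
    have hmem : γ j ^ n * aeval γ' Q ∈ P' := by
      by_contra h1
      have h2 : (γ j ^ n * aeval γ' Q).IsHomogeneous (D * n + D' * n) := ((hγ j).pow n).mul (Dom_aeval_homog hγ' hQ)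
      obtain ⟨y, hy, hyn⟩ := Pool.Agent.H17EF.exists_point hP' hX' h1 h2
      apply hyn
      have h3 : eval y.rep (aeval γ Q) = 0 := hy _ h _ (Dom_aeval_homog hγ hQ)
      unfold VanishesAt
      rw [map_mul, map_pow, Pool.Agent.H7.Bir.eval_comp, ← Dom_smul hQ]
      have h4 : eval y.rep (γ j) • vals γ' y.rep = eval y.rep (γ' j) • vals γ y.rep := by
        funext i
        have h5 := Dom_prop hrep hrep' hy j i
        change eval y.rep (γ j) * eval y.rep (γ' i) = eval y.rep (γ' j) * eval y.rep (γ i)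
        rw [h5, mul_comm]
      rw [h4, Dom_smul hQ, ← Pool.Agent.H7.Bir.eval_comp, h3, mul_zero]
    rcases Ideal.IsPrime.mem_or_mem inferInstance hmem with h1 | h1
    · exact hjP (Ideal.IsPrime.mem_of_pow_mem inferInstance n h1)
    · apply hxQ
      rw [hrep' y' hy' hne', Pool.Agent.H7.Bir.vanishesAt_rmap hne' hQ]
      exact hy' _ h1 _ (Dom_aeval_homog hγ' hQ)
  · intro h
    by_contra hcon
    obtain ⟨y, hy, hyn⟩ := Pool.Agent.H17EF.exists_point hP' hX' hcon (Dom_aeval_homog hγ hQ)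
    apply hyn
    by_cases h1 : vals γ y.rep = 0
    · unfold VanishesAt
      rw [Pool.Agent.H7.Bir.eval_comp, h1]
      have h2 : eval (p y).rep Q = 0 := hp.maps y hy Q h n hQ
      have h3 := Dom_smul hQ 0 (p y).rep
      rw [zero_smul, h2, mul_zero] at h3
      exact h3
    · rw [← Pool.Agent.H7.Bir.vanishesAt_rmap h1 hQ, ← hrep y hy h1]
      exact hp.maps y hy Q h n hQ

/-- finitely many systems of forms represent `p` -/
theorem exists_cover (hP' : Homog P') (hp : IsReg P P' p) : ∃ (n : ℕ) (D : Fin n → ℕ) (γ : Fin n → Fin (N + 1) → MvPolynomial (Fin (M + 1)) ℂ),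
    (∀ k i, (γ k i).IsHomogeneous (D k)) ∧ (∀ k, ∃ y ∈ projVar P', vals (γ k) y.rep ≠ 0) ∧
    (∀ k, ∀ y ∈ projVar P', vals (γ k) y.rep ≠ 0 → p y = rmap (γ k) y) ∧ ∀ y ∈ projVar P', ∃ k, vals (γ k) y.rep ≠ 0 := by
  have hloc : ∀ m ∈ pn '' projVar P', ∃ (D : ℕ) (γ : Fin (N + 1) → MvPolynomial (Fin (M + 1)) ℂ) (δ : ℝ), (∀ i, (γ i).IsHomogeneous D) ∧
      (∃ y ∈ projVar P', vals γ y.rep ≠ 0) ∧ (∀ y ∈ projVar P', vals γ y.rep ≠ 0 → p y = rmap γ y) ∧ 0 < δ ∧
      ∀ y : PN M, dist (pn y) m < δ → vals γ y.rep ≠ 0 := by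
    rintro _ ⟨y, hy, rfl⟩
    obtain ⟨D, γ, hγ, hne, hrep⟩ := hp.regular y hy
    have hU : {x : Fin (M + 1) → ℂ | vals γ x ≠ 0} ∈ 𝓝 y.rep := by
      have hc : Continuous (vals γ) := continuous_pi fun i => MvPolynomial.continuous_eval (γ i)
      exact (isOpen_ne.preimage hc).mem_nhds hne
    obtain ⟨δ, hδ, hnear⟩ := pn_near y.rep_nonzero hU
    refine ⟨D, γ, δ, hγ, ⟨y, hy, hne⟩, hrep, hδ, fun y' hy' => ?_⟩
    have hmk : Projectivization.mk ℂ y.rep y.rep_nonzero = y := Projectivization.mk_rep y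
    obtain ⟨x', hx', hx0, rfl⟩ := hnear y' (by rw [hmk]; exact hy')
    obtain ⟨a, ha⟩ := Projectivization.exists_smul_eq_mk_rep ℂ x' hx0
    have h1 : (Projectivization.mk ℂ x' hx0).rep = (a : ℂ) • x' := ha.symm
    rw [h1, Pool.Agent.H7.Bir.vals_smul hγ]
    exact smul_ne_zero (pow_ne_zero _ a.ne_zero) hx'
  choose! D γ δ h1 h2 h3 h4 h5 using hloc
  obtain ⟨t, ht, hcov⟩ := (isCompact_pn hP').elim_nhds_subcover (fun m => Metric.ball m (δ m)) fun m hm => Metric.ball_mem_nhds m (h4 m hm)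
  refine ⟨t.card, fun k => D (t.equivFin.symm k : MN M), fun k => γ (t.equivFin.symm k : MN M), fun k i => h1 _ (ht _ (t.equivFin.symm k).2) i,
    fun k => h2 _ (ht _ (t.equivFin.symm k).2), fun k => h3 _ (ht _ (t.equivFin.symm k).2), fun y hy => ?_⟩
  have h6 := hcov (Set.mem_image_of_mem pn hy)
  rw [Set.mem_iUnion₂] at h6
  obtain ⟨m, hm, hmy⟩ := h6
  refine ⟨t.equivFin ⟨m, hm⟩, ?_⟩
  change vals (γ (t.equivFin.symm (t.equivFin ⟨m, hm⟩) : MN M)) y.rep ≠ 0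
  rw [Equiv.symm_apply_apply]
  exact h5 m (ht m hm) y hmy

/-- The forms with `T (x) = 0` for all `x = p y` with `R' (y) = 0`. -/
theorem exists_image_form {P : Ideal (MvPolynomial (Fin (N + 1)) ℂ)} [P.IsPrime] {P' : Ideal (MvPolynomial (Fin (M + 1)) ℂ)} [P'.IsPrime]
    (hP : Homog P) (hP' : Homog P') (hX : ∃ i, (X i : MvPolynomial (Fin (N + 1)) ℂ) ∉ P) (hz : ∃ z : Fin 2 → FunField P, IsTranscendenceBasis ℂ z)
    (hz' : ∃ z' : Fin 2 → FunField P', IsTranscendenceBasis ℂ z') {p : PN M → PN N} (hp : IsReg P P' p) {n' : ℕ}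
    {R' : MvPolynomial (Fin (M + 1)) ℂ} (hR' : R'.IsHomogeneous n') (hRP' : R' ∉ P') :
    ∃ (T : MvPolynomial (Fin (N + 1)) ℂ) (n : ℕ), T.IsHomogeneous n ∧ T ∉ P ∧ ∀ y ∈ projVar P', VanishesAt R' y → VanishesAt T (p y) := by
  classical
  obtain ⟨n, D, γ, hγ, hγne, hrep, hcov⟩ := exists_cover hP' hp
  choose R m hR hRP hRev using fun k => Pool.Agent.H19OL.exists_norm_form hz hz' (hγ k)
    (dominant hP hP' hX hp (hγ k) (hrep k) (hγne k)) hR' hRP'
  refine ⟨∏ k, R k, ∑ k, m k, MvPolynomial.IsHomogeneous.prod _ _ _ fun k _ => hR k, ?_, ?_⟩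
  · intro h
    obtain ⟨k, -, hk⟩ := ((inferInstance : P.IsPrime).prod_mem_iff).1 h
    exact hRP k hk
  · intro y hy hyR
    obtain ⟨k, hk⟩ := hcov y hy
    have h1 : VanishesAt (R k) (p y) := by
      rw [hrep k y hy hk]
      unfold Pool.Agent.H7.Bir.rmap
      rw [dif_pos hk, vanishesAt_mk_iff (hR k)]
      refine hRev k y.rep y.rep_nonzero (fun Q hQ => ?_) hyR
      rw [← MvPolynomial.sum_homogeneousComponent Q, map_sum]
      exact Finset.sum_eq_zero fun i _ => hy _ (hP' Q hQ i) i (homogeneousComponent_isHomogeneous i Q)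
    unfold VanishesAt at h1 ⊢
    rw [map_prod]
    exact Finset.prod_eq_zero (Finset.mem_univ k) h1

end Pool.Agent.H62.Qe
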