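import Pool.Agent.H39.SY.ChartAt
import Pool.Agent.H13.SM.Surf

/-!
# Qe Chart: the chart of the cone of a surface at a smooth point
-/

set_option autoImplicit false

open MvPolynomial Topology Filter

noncomputable section

namespace Pool.Agent.H62.Qe

open Pool.Agent.H17LG.Variety (FunField)
open Pool.Agent.H62.FC (Homog)
open Pool.Agent.H17BP (IsChart)
open Pool.Agent.H13.SM (cone conTan)

variable {N : ℕ} {P : Ideal (MvPolynomial (Fin (N + 1)) ℂ)}

/-- The chart of the cone of a surface at a smooth point. -/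
theorem exists_isChart [P.IsPrime] (hP : Homog P) {z : Fin 2 → FunField P}
    (hz : IsTranscendenceBasis ℂ z) {x : Fin (N + 1) → ℂ} (hx : x ∈ cone P) (hsm : Module.finrank ℂ (conTan P x) ≤ 3) :
    ∃ (σ : ℂ × ℂ → Fin (N + 1) → ℂ) (τ : (Fin (N + 1) → ℂ) → ℂ × ℂ), IsChart (cone P) σ τ ∧ σ 0 = x := by
  obtain ⟨l, hl⟩ : ∃ l, x l ≠ 0 := by
    by_contra h
    push Not at h
    exact hx.1 (funext h)
  obtain ⟨I, σ, hch⟩ := Pool.Agent.H39.SY.exists_chartAt hP ⟨z, hz⟩ hx.2 hsm hl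
  have h1 := hch.an
  have h2 := hch.zero
  have h3 := hch.coord
  have h4 := hch.near
  -- the linear isomorphism `ℂ × ℂ → (Fin 2 → ℂ)`
  have hvan : ∀ p : ℂ × ℂ, AnalyticAt ℂ (fun q : ℂ × ℂ => (![q.1, q.2] : Fin 2 → ℂ)) p := by
    intro p
    refine AnalyticAt.pi fun k => ?_
    fin_cases k
    · exact analyticAt_fst
    · exact analyticAt_snd
  have hv0 : (![(0 : ℂ × ℂ).1, (0 : ℂ × ℂ).2] : Fin 2 → ℂ) = 0 := by
    funext k
    fin_cases k <;> rfl
  have hvt : Tendsto (fun q : ℂ × ℂ => (![q.1, q.2] : Fin 2 → ℂ)) (𝓝 0) (𝓝 0) := by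
    have := (hvan 0).continuousAt.tendsto
    rwa [hv0] at this
  have hl1 : ∀ᶠ y in 𝓝 x, y l ≠ 0 :=
    (continuous_apply l).continuousAt.eventually_ne hl
  have hvec : ∀ y : Fin (N + 1) → ℂ, (fun k => y (I k) / y l - x (I k) / x l) =
      (![y (I 0) / y l - x (I 0) / x l, y (I 1) / y l - x (I 1) / x l] : Fin 2 → ℂ) := by
    intro y
    funext k
    fin_cases k <;> rfl
  have h4' : ∀ᶠ y in 𝓝 x, (∀ Q ∈ P, eval y Q = 0) →
      y = (y l / x l) • σ ![y (I 0) / y l - x (I 0) / x l, y (I 1) / y l - x (I 1) / x l] := by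
    filter_upwards [h4] with y hy hy'
    have := hy hy'
    rwa [hvec] at this
  have hσ0 : σ ![(0 : ℂ × ℂ).1, (0 : ℂ × ℂ).2] = x := by rw [hv0, h2]
  refine ⟨fun p => σ ![p.1, p.2], fun y => (y (I 0) / y l - x (I 0) / x l, y (I 1) / y l - x (I 1) / x l), ?_, hσ0⟩
  refine ⟨?_, ?_, ?_, ?_, ?_, ?_, ?_⟩
  · have h6 : AnalyticAt ℂ σ ((fun q : ℂ × ℂ => (![q.1, q.2] : Fin 2 → ℂ)) 0) := by
      simpa only [hv0] using h1
    exact AnalyticAt.comp (g := σ) (f := fun q : ℂ × ℂ => (![q.1, q.2] : Fin 2 → ℂ)) h6 (hvan 0)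
  · filter_upwards [hvt.eventually h3] with p hp
    refine ⟨?_, hp.1⟩
    intro h6
    apply hl
    rw [← hp.2.1, h6]
    rfl
  · rw [hσ0]
    exact hx.1
  · rw [hσ0]
    have hpr : ∀ i : Fin (N + 1), AnalyticAt ℂ (fun y : Fin (N + 1) → ℂ => y i) x := fun i =>
      (ContinuousLinearMap.proj (R := ℂ) (φ := fun _ : Fin (N + 1) => ℂ) i).analyticAt x
    exact (((hpr _).div (hpr l) hl).sub analyticAt_const).prod
      (((hpr _).div (hpr l) hl).sub analyticAt_const)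
  · filter_upwards [hvt.eventually h3] with p hp
    have e0 := hp.2.2 0
    have e1 := hp.2.2 1
    simp only [Matrix.cons_val_zero, Matrix.cons_val_one] at e0 e1
    ext
    · change σ ![p.1, p.2] (I 0) / σ ![p.1, p.2] l - x (I 0) / x l = p.1
      rw [e0, hp.2.1]
      field_simp
      ring
    · change σ ![p.1, p.2] (I 1) / σ ![p.1, p.2] l - x (I 1) / x l = p.2
      rw [e1, hp.2.1]
      field_simp
      ring
  · rw [hσ0]
    filter_upwards [h4', hl1] with y hy hyl hyX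
    exact ⟨y l / x l, div_ne_zero hyl hl, hy hyX.2⟩
  · rw [hσ0]
    have h7 : ∀ᶠ p in 𝓝 (x, (1 : ℂ)), p.2 ≠ 0 := by
      have : ContinuousAt (fun p : (Fin (N + 1) → ℂ) × ℂ => p.2) (x, (1 : ℂ)) :=
        continuousAt_snd
      exact this.eventually_ne one_ne_zero
    filter_upwards [h7] with p hp
    simp only [Pi.smul_apply, smul_eq_mul]
    rw [mul_div_mul_left _ _ hp, mul_div_mul_left _ _ hp]

end Pool.Agent.H62.Qe
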