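import Pool.Agent.H62.Qe.Defs
import Pool.Agent.H62.Qe.Chart
import Pool.Agent.H36.BP.GermChart

/-!
# Qe Unr: a map which is unramified over a smooth open surface is etale over it (adapted from `Pool.Agent.H62.Et.Unr`)
-/

set_option autoImplicit false

open Topology Filter MvPolynomial

noncomputable section

namespace Pool.Agent.H62.Qe

open Pool.Agent.H17 (PN VanishesAt HolomorphicInto)
open Pool.Agent.H62.FC (Homog)
open Pool.Agent.H17LG.Variety (FunField)
open Pool.Agent.H13.SM (conTan)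
open Pool.Agent.H17EF (projVar)
open Pool.Agent.H62.SA (locVar)
open Pool.Agent.H62.Et (dvals)

variable {N M : ℕ} {P : Ideal (MvPolynomial (Fin (N + 1)) ℂ)} {P' : Ideal (MvPolynomial (Fin (M + 1)) ℂ)} {p : PN M → PN N}

open Pool.Agent.H13.SM (cone surface_cone)
open Pool.Agent.H17BP (IsChart Surface Bihol bihol_iff)
open Pool.Agent.H7.Bir (vals rmap vals_smul)
open Pool.Agent.H17EF (mk_mem_projVar)

private theorem Unr_dual {V : Type} [NormedAddCommGroup V] [NormedSpace ℂ V] {x : V} (hx : x ≠ 0) : ∃ Λ : V →L[ℂ] ℂ, Λ x ≠ 0 := by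
  obtain ⟨Λ, hΛ⟩ := exists_dual_vector ℂ x (norm_ne_zero_iff.mpr hx)
  refine ⟨Λ, ?_⟩
  rw [hΛ.2]
  simpa using hx

/-- proportional points near `σ 0` have the same coordinates -/
private theorem Unr_tau {V T : Type} [NormedAddCommGroup V] [NormedSpace ℂ V] {X : Set V} {σ : ℂ × ℂ → V} {τ : V → ℂ × ℂ}
    (h : IsChart X σ τ) {l : Filter T} {f g : T → V} (hf : Tendsto f l (𝓝 (σ 0))) (hg : Tendsto g l (𝓝 (σ 0))) :
    ∀ᶠ t in l, (∃ c : ℂ, f t = c • g t) → τ (f t) = τ (g t) := by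
  obtain ⟨Λ, hΛ⟩ := Unr_dual h.ne
  have h1 : Tendsto (fun t => Λ (f t)) l (𝓝 (Λ (σ 0))) := (Λ.continuous.tendsto _).comp hf
  have h2 : Tendsto (fun t => Λ (g t)) l (𝓝 (Λ (σ 0))) := (Λ.continuous.tendsto _).comp hg
  have h3 : Tendsto (fun t => (g t, Λ (f t) / Λ (g t))) l (𝓝 (σ 0, (1 : ℂ))) := by
    have := h1.div h2 hΛ
    rw [div_self hΛ] at this
    exact hg.prodMk_nhds this
  filter_upwards [h3.eventually h.inv, h2.eventually_ne hΛ] with t h4 h5
  rintro ⟨c, hc⟩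
  have h6 : Λ (f t) / Λ (g t) = c := by
    rw [hc, map_smul, smul_eq_mul, mul_div_assoc, div_self h5, mul_one]
  rw [h6] at h4
  rw [hc]
  exact h4

/-- an injective endomorphism of `ℂ²` has a determinant which is not zero -/
private theorem Unr_det (L : ℂ × ℂ →L[ℂ] ℂ × ℂ) (hinj : ∀ v : ℂ × ℂ, L v = 0 → v = 0) :
    (L (1, 0)).1 * (L (0, 1)).2 - (L (0, 1)).1 * (L (1, 0)).2 ≠ 0 := by
  intro hdet
  have hap : ∀ x : ℂ × ℂ, L x = (x.1 * (L (1, 0)).1 + x.2 * (L (0, 1)).1, x.1 * (L (1, 0)).2 + x.2 * (L (0, 1)).2) := by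
    intro x
    have h1 : x = x.1 • ((1, 0) : ℂ × ℂ) + x.2 • ((0, 1) : ℂ × ℂ) := by
      ext <;> simp
    conv_lhs => rw [h1]
    rw [map_add, map_smul, map_smul]
    ext <;> simp
  have e1 := hinj ((L (0, 1)).2, -(L (1, 0)).2) (by
    rw [hap]
    ext
    · simp only [Prod.fst_zero]
      linear_combination hdet
    · simp only [Prod.snd_zero]
      ring)
  have e2 := hinj ((L (0, 1)).1, -(L (1, 0)).1) (by
    rw [hap]
    ext
    · simp only [Prod.fst_zero]
      ring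
    · simp only [Prod.snd_zero]
      linear_combination -hdet)
  have e3 := hinj (1, 0) (by
    ext
    · have := congrArg Prod.snd e2
      simpa using this
    · have := congrArg Prod.snd e1
      simpa using this)
  have := congrArg Prod.fst e3
  simp at this

/-- the derivative of a polynomial along a curve -/
private theorem Unr_poly {K : ℕ} (Q : MvPolynomial (Fin (K + 1)) ℂ) {c : ℂ → Fin (K + 1) → ℂ} {c' : Fin (K + 1) → ℂ} {t : ℂ}
    (hc : HasDerivAt c c' t) : HasDerivAt (fun s => eval (c s) Q) (∑ i, eval (c t) (pderiv i Q) * c' i) t := by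
  have hci : ∀ i, HasDerivAt (fun s => c s i) (c' i) t := fun i => (hasDerivAt_pi.1 hc) i
  induction Q using MvPolynomial.induction_on with
  | C a =>
    have h1 : (fun s => eval (c s) (C a : MvPolynomial (Fin (K + 1)) ℂ)) = fun _ => a := by
      funext s
      simp
    have h2 : (∑ i, eval (c t) (pderiv i (C a : MvPolynomial (Fin (K + 1)) ℂ)) * c' i) = 0 := by
      refine Finset.sum_eq_zero fun i _ => ?_
      simp
    rw [h1, h2]
    exact hasDerivAt_const t a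
  | add p q hp hq =>
    have h1 : (fun s => eval (c s) (p + q)) = fun s => eval (c s) p + eval (c s) q := by
      funext s
      simp
    have h2 : (∑ i, eval (c t) (pderiv i (p + q)) * c' i) =
        (∑ i, eval (c t) (pderiv i p) * c' i) + ∑ i, eval (c t) (pderiv i q) * c' i := by
      rw [← Finset.sum_add_distrib]
      refine Finset.sum_congr rfl fun i _ => ?_
      rw [map_add, map_add, add_mul]
    rw [h1, h2]
    exact hp.fun_add hq
  | mul_X p j hp =>
    have h1 : (fun s => eval (c s) (p * X j)) = fun s => eval (c s) p * c s j := by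
      funext s
      simp
    have h2 : (∑ i, eval (c t) (pderiv i (p * X j)) * c' i) =
        (∑ i, eval (c t) (pderiv i p) * c' i) * c t j + eval (c t) p * c' j := by
      have h3 : ∀ i, eval (c t) (pderiv i (p * X j)) * c' i =
          eval (c t) (pderiv i p) * c' i * c t j + (if i = j then eval (c t) p * c' i else 0) := by
        intro i
        rw [Derivation.leibniz, pderiv_X, map_add, smul_eq_mul, smul_eq_mul, map_mul, map_mul, eval_X]
        by_cases hij : j = i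
        · subst hij
          simp
          ring
        · rw [Pi.single_eq_of_ne hij, if_neg fun h => hij h.symm]
          simp
          ring
      rw [Finset.sum_congr rfl fun i _ => h3 i, Finset.sum_add_distrib, Finset.sum_ite_eq', if_pos (Finset.mem_univ j),
        Finset.sum_mul]
    rw [h1, h2]
    exact hp.fun_mul (hci j)

private theorem Unr_vals_an {K L : ℕ} (γ : Fin (K + 1) → MvPolynomial (Fin (L + 1)) ℂ) (y : Fin (L + 1) → ℂ) : AnalyticAt ℂ (vals γ) y := by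
  rw [analyticAt_pi_iff]
  intro i
  have h1 : AnalyticAt ℂ (fun w : Fin (L + 1) → ℂ => MvPolynomial.aeval w (γ i)) y :=
    AnalyticAt.aeval_mvPolynomial (fun i => (ContinuousLinearMap.proj (R := ℂ) (φ := fun _ : Fin (L + 1) => ℂ) i).analyticAt y) (γ i)
  exact h1

/-- The local form of an unramified map. -/
private theorem Unr_local [P.IsPrime] [P'.IsPrime] (hP : Homog P) (hP' : Homog P') (hmaps : ∀ y ∈ projVar P', p y ∈ projVar P)
    {y : Fin (M + 1) → ℂ}
    {γ : Fin (N + 1) → MvPolynomial (Fin (M + 1)) ℂ}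
    (hγp : ∀ (y' : Fin (M + 1) → ℂ) (hy' : y' ≠ 0) (h : vals γ y' ≠ 0), Projectivization.mk ℂ y' hy' ∈ projVar P' →
        p (Projectivization.mk ℂ y' hy') = Projectivization.mk ℂ (vals γ y') h)
    (hinj : ∀ v ∈ conTan P' y, ∀ c : ℂ, dvals γ y v = c • vals γ y → ∃ a : ℂ, v = a • y)
    {σ' : ℂ × ℂ → Fin (M + 1) → ℂ} {τ' : (Fin (M + 1) → ℂ) → ℂ × ℂ} (h' : IsChart (cone P') σ' τ') (h0' : σ' 0 = y)
    {σ : ℂ × ℂ → Fin (N + 1) → ℂ} {τ : (Fin (N + 1) → ℂ) → ℂ × ℂ} (h : IsChart (cone P) σ τ) (h0 : σ 0 = vals γ y) :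
    Bihol fun q => τ (vals γ (σ' q)) := by
  have hcone : ∀ y' ∈ cone P', vals γ y' ≠ 0 → vals γ y' ∈ cone P := by
    intro y' hy' hv'
    have h1 := (mk_mem_projVar hP' hy'.1).2 hy'
    have h2 := hmaps _ h1
    rw [hγp y' hy'.1 hv' h1] at h2
    exact (mk_mem_projVar hP hv').1 h2
  have hφan : AnalyticAt ℂ (fun q => τ (vals γ (σ' q))) 0 := by
    have h1 : AnalyticAt ℂ (fun q => vals γ (σ' q)) 0 := (Unr_vals_an γ (σ' 0)).comp h'.σ_an
    refine AnalyticAt.comp (g := τ) (f := fun q => vals γ (σ' q)) ?_ h1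
    rw [h0', ← h0]
    exact h.τ_an
  have hφ0 : τ (vals γ (σ' 0)) = 0 := by
    rw [h0', ← h0]
    exact h.left.self_of_nhds
  rw [bihol_iff hφan hφ0]
  refine Unr_det _ fun v hLv => ?_
  -- the curve `t ↦ σ' (t v)`
  have hline : HasDerivAt (fun t : ℂ => t • v) v 0 := by
    have := (hasDerivAt_id (0 : ℂ)).smul_const v
    simpa using this
  have hline0 : (0 : ℂ) • v = 0 := zero_smul _ _
  have hlinet : Tendsto (fun t : ℂ => t • v) (𝓝 0) (𝓝 0) := by
    have := hline.continuousAt.tendsto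
    rwa [hline0] at this
  set w : Fin (M + 1) → ℂ := fderiv ℂ σ' 0 v with hw
  have hc : HasDerivAt (fun t : ℂ => σ' (t • v)) w 0 := by
    have h1 : HasFDerivAt σ' (fderiv ℂ σ' 0) ((0 : ℂ) • v) := by
      rw [hline0]
      exact h'.σ_an.differentiableAt.hasFDerivAt
    exact h1.comp_hasDerivAt (0 : ℂ) hline
  have hc0 : σ' ((0 : ℂ) • v) = y := by rw [hline0, h0']
  have hct : Tendsto (fun t : ℂ => σ' (t • v)) (𝓝 0) (𝓝 y) := by
    have := hc.continuousAt.tendsto
    rwa [hc0] at this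
  -- `w` is a tangent vector
  have hwT : w ∈ conTan P' y := by
    intro Q hQ
    have h1 := Unr_poly Q hc
    rw [hc0] at h1
    have h2 : HasDerivAt (fun s : ℂ => eval (σ' (s • v)) Q) 0 0 := by
      refine (hasDerivAt_const (0 : ℂ) (0 : ℂ)).congr_of_eventuallyEq ?_
      filter_upwards [hlinet.eventually h'.σ_mem] with s hs
      exact hs.2 Q hQ
    have h3 := h1.unique h2
    rw [← h3]
    exact Finset.sum_congr rfl fun i _ => mul_comm _ _
  -- the curve `t ↦ vals γ (σ' (t v))`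
  have hg : HasDerivAt (fun t : ℂ => vals γ (σ' (t • v))) (dvals γ y w) 0 := by
    rw [hasDerivAt_pi]
    intro i
    have h1 := Unr_poly (γ i) hc
    rw [hc0] at h1
    exact h1
  have hgt : Tendsto (fun t : ℂ => vals γ (σ' (t • v))) (𝓝 0) (𝓝 (σ 0)) := by
    have := hg.continuousAt.tendsto
    rw [hc0] at this
    rwa [h0]
  have hτg : HasDerivAt (fun t : ℂ => τ (vals γ (σ' (t • v)))) 0 0 := by
    have h1 : HasFDerivAt (fun q => τ (vals γ (σ' q))) (fderiv ℂ (fun q => τ (vals γ (σ' q))) 0) ((0 : ℂ) • v) := by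
      rw [hline0]
      exact hφan.differentiableAt.hasFDerivAt
    have h2 := h1.comp_hasDerivAt (0 : ℂ) hline
    rw [hLv] at h2
    exact h2
  have hs : HasDerivAt (fun t : ℂ => σ (τ (vals γ (σ' (t • v))))) 0 0 := by
    have h1 : HasFDerivAt σ (fderiv ℂ σ 0) (τ (vals γ (σ' ((0 : ℂ) • v)))) := by
      rw [hline0, hφ0]
      exact h.σ_an.differentiableAt.hasFDerivAt
    have h2 := h1.comp_hasDerivAt (0 : ℂ) hτg
    rw [map_zero] at h2
    exact h2
  obtain ⟨Λ, hΛ⟩ := Unr_dual h.ne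
  have hs0 : σ (τ (vals γ (σ' ((0 : ℂ) • v)))) = σ 0 := by rw [hline0, hφ0]
  have hg0 : vals γ (σ' ((0 : ℂ) • v)) = σ 0 := by rw [hline0, h0', h0]
  have hΛs : HasDerivAt (fun t : ℂ => Λ (σ (τ (vals γ (σ' (t • v)))))) 0 0 := by
    have h2 := (Λ.hasFDerivAt (x := σ (τ (vals γ (σ' ((0 : ℂ) • v)))))).comp_hasDerivAt (0 : ℂ) hs
    rw [map_zero] at h2
    exact h2
  have hΛg : HasDerivAt (fun t : ℂ => Λ (vals γ (σ' (t • v)))) (Λ (dvals γ y w)) 0 :=
    (Λ.hasFDerivAt (x := vals γ (σ' ((0 : ℂ) • v)))).comp_hasDerivAt (0 : ℂ) hg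
  have e1 := hΛs.fun_smul hg
  have e2 := hΛg.fun_smul hs
  have heq : (fun t : ℂ => Λ (σ (τ (vals γ (σ' (t • v))))) • vals γ (σ' (t • v))) =ᶠ[𝓝 0]
      fun t : ℂ => Λ (vals γ (σ' (t • v))) • σ (τ (vals γ (σ' (t • v)))) := by
    have hne : ∀ᶠ t : ℂ in 𝓝 0, vals γ (σ' (t • v)) ≠ 0 := hgt.eventually_ne h.ne
    filter_upwards [hlinet.eventually h'.σ_mem, hgt.eventually h.right, hne] with t k1 k2 k3
    obtain ⟨c, hc1, hc2⟩ := k2 (hcone _ k1 k3)
    have k4 : Λ (vals γ (σ' (t • v))) = c * Λ (σ (τ (vals γ (σ' (t • v))))) := by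
      conv_lhs => rw [hc2]
      rw [map_smul, smul_eq_mul]
    rw [k4]
    conv_lhs => rw [hc2]
    rw [smul_smul, mul_comm]
    congr 3
    all_goals first | rfl | exact hc2.symm | rw [← hc2]
  have e3 := e1.unique (e2.congr_of_eventuallyEq heq)
  rw [hs0, hg0, smul_zero, zero_smul, add_zero, zero_add] at e3
  have e4 : dvals γ y w = ((Λ (σ 0))⁻¹ * Λ (dvals γ y w)) • vals γ y := by
    rw [mul_smul, ← h0, ← e3, smul_smul, inv_mul_cancel₀ hΛ, one_smul]
  obtain ⟨a, ha⟩ := hinj w hwT _ e4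
  -- the derivative of `τ'`
  have hτd : HasFDerivAt τ' (fderiv ℂ τ' y) y := by
    have := h'.τ_an
    rw [h0'] at this
    exact this.differentiableAt.hasFDerivAt
  have f1 : fderiv ℂ τ' y w = v := by
    have h1 : HasFDerivAt τ' (fderiv ℂ τ' y) (σ' ((0 : ℂ) • v)) := by rwa [hc0]
    have h2 := h1.comp_hasDerivAt (0 : ℂ) hc
    have h3 : HasDerivAt (τ' ∘ fun t : ℂ => σ' (t • v)) v 0 := by
      refine hline.congr_of_eventuallyEq ?_
      filter_upwards [hlinet.eventually h'.left] with t ht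
      exact ht
    exact h2.unique h3
  have f2 : fderiv ℂ τ' y y = 0 := by
    have k1 : HasDerivAt (fun t : ℂ => (1 + t) • y) y 0 := by
      have := ((hasDerivAt_id (0 : ℂ)).const_add 1).smul_const y
      simpa using this
    have k2 : ((1 : ℂ) + 0) • y = y := by rw [add_zero, one_smul]
    have h1 : HasFDerivAt τ' (fderiv ℂ τ' y) (((1 : ℂ) + 0) • y) := by rwa [k2]
    have h2 := h1.comp_hasDerivAt (0 : ℂ) k1
    have k3 : Tendsto (fun t : ℂ => (y, 1 + t)) (𝓝 0) (𝓝 (σ' 0, (1 : ℂ))) := by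
      have k4 : Continuous fun t : ℂ => (y, 1 + t) := by fun_prop
      have := k4.tendsto (0 : ℂ)
      rw [add_zero] at this
      rwa [h0']
    have h3 : HasDerivAt (τ' ∘ fun t : ℂ => (1 + t) • y) 0 0 := by
      refine (hasDerivAt_const (0 : ℂ) (τ' y)).congr_of_eventuallyEq ?_
      filter_upwards [k3.eventually h'.inv] with t ht
      exact ht
    exact h2.unique h3
  rw [← f1, ha, map_smul, f2, smul_zero]

theorem isEtaleOver_of_isUnramifiedOver [P.IsPrime] [P'.IsPrime] (hP : Homog P) (hP' : Homog P') {z : Fin 2 → FunField P}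
    (hz : IsTranscendenceBasis ℂ z) {z' : Fin 2 → FunField P'} (hz' : IsTranscendenceBasis ℂ z') {s s' : ℕ}
    {G : Fin s → MvPolynomial (Fin (N + 1)) ℂ} {G' : Fin s' → MvPolynomial (Fin (M + 1)) ℂ}
    (hsm : ∀ (y : Fin (N + 1) → ℂ) (hy : y ≠ 0), Projectivization.mk ℂ y hy ∈ locVar P G → Module.finrank ℂ (conTan P y) ≤ 3)
    (hsm' : ∀ (y : Fin (M + 1) → ℂ) (hy : y ≠ 0), Projectivization.mk ℂ y hy ∈ locVar P' G' → Module.finrank ℂ (conTan P' y) ≤ 3)
    (hp : IsUnramifiedOver P P' G G' p) : IsEtaleOver P P' G G' p := by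
  have hcone : ∀ (D : ℕ) (γ : Fin (N + 1) → MvPolynomial (Fin (M + 1)) ℂ),
      (∀ (y' : Fin (M + 1) → ℂ) (hy' : y' ≠ 0) (h : vals γ y' ≠ 0), Projectivization.mk ℂ y' hy' ∈ projVar P' →
        p (Projectivization.mk ℂ y' hy') = Projectivization.mk ℂ (vals γ y') h) →
      ∀ y' ∈ cone P', vals γ y' ≠ 0 → vals γ y' ∈ cone P := by
    intro D γ hγp y' hy' hv'
    have h1 := (mk_mem_projVar hP' hy'.1).2 hy'
    have h2 := hp.maps _ h1
    rw [hγp y' hy'.1 hv' h1] at h2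
    exact (mk_mem_projVar hP hv').1 h2
  refine ⟨⟨hp.maps, hp.surj, ?_⟩, hp.inv, ?_, ?_⟩
  · intro y hy
    obtain ⟨D, γ, h1, h2, h3, -⟩ := hp.regular y.rep y.rep_nonzero (by rwa [Projectivization.mk_rep])
    refine ⟨D, γ, h1, h2, fun y' hy' hv => ?_⟩
    have h4 := h3 y'.rep y'.rep_nonzero hv (by rwa [Projectivization.mk_rep])
    rw [Projectivization.mk_rep] at h4
    rw [h4]
    unfold Pool.Agent.H7.Bir.rmap
    rw [dif_pos hv]
  · intro y hy hyU
    have hyX : Projectivization.mk ℂ y hy ∈ projVar P' := hyU.1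
    obtain ⟨D, γ, hγ, hv, hγp, hinj'⟩ := hp.regular y hy hyX
    have hinj := hinj' hyU
    have hxU : Projectivization.mk ℂ (vals γ y) hv ∈ locVar P G := by
      rw [← hγp y hy hv hyX]
      exact (hp.inv _ hyX).2 hyU
    have hyc : y ∈ cone P' := (mk_mem_projVar hP' hy).1 hyX
    have hxc : vals γ y ∈ cone P := hcone D γ hγp y hyc hv
    obtain ⟨σ', τ', h', h0'⟩ := exists_isChart hP' hz' hyc (hsm' y hy hyU)
    obtain ⟨σ, τ, h, h0⟩ := exists_isChart hP hz hxc (hsm _ hv hxU)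
    have hB := Unr_local hP hP' hp.maps hγp hinj h' h0' h h0
    obtain ⟨ψ, hψ1, hψ2, hψ3, hψ4⟩ := hB.inv
    have hval : Tendsto (vals γ) (𝓝 y) (𝓝 (σ 0)) := by
      rw [h0]
      exact (Unr_vals_an γ y).continuousAt.tendsto
    have hτ' : Tendsto τ' (𝓝 y) (𝓝 0) := by
      have h1 := h'.τ_an.continuousAt.tendsto
      rwa [h'.left.self_of_nhds, h0'] at h1
    have hσ' : Tendsto (fun q => σ' (τ' q)) (𝓝 y) (𝓝 y) := by
      have h1 := h'.σ_an.continuousAt.tendsto
      rw [h0'] at h1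
      exact h1.comp hτ'
    have hright : ∀ᶠ q in 𝓝 y, q ∈ cone P' → ∃ c : ℂ, c ≠ 0 ∧ q = c • σ' (τ' q) := by
      rw [← h0']
      exact h'.right
    -- the coordinates of the image
    have h1 : ∀ᶠ q in 𝓝 y, q ∈ cone P' → (∃ c : ℂ, c ≠ 0 ∧ q = c • σ' (τ' q)) ∧ vals γ q ≠ 0 ∧ ψ (τ (vals γ q)) = τ' q := by
      filter_upwards [hright, Unr_tau h hval (hval.comp hσ'), hval.eventually_ne h.ne, hτ'.eventually hψ3] with q k1 k2 k3 k4 k5
      obtain ⟨c, hc, hq⟩ := k1 k5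
      refine ⟨⟨c, hc, hq⟩, k3, ?_⟩
      have k6 : vals γ q = c ^ D • vals γ (σ' (τ' q)) := by
        conv_lhs => rw [hq]
        rw [vals_smul hγ]
      have k7 := k2 ⟨c ^ D, k6⟩
      rw [k7]
      exact k4
    have h2 : ∀ᶠ q in 𝓝 (y, y), (∃ c : ℂ, vals γ q.1 = c • vals γ q.2) → τ (vals γ q.1) = τ (vals γ q.2) :=
      Unr_tau h (hval.comp (continuous_fst.tendsto' (y, y) y rfl)) (hval.comp (continuous_snd.tendsto' (y, y) y rfl))
    filter_upwards [(continuous_fst.tendsto' (y, y) y rfl).eventually h1, (continuous_snd.tendsto' (y, y) y rfl).eventually h1, h2] with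
      q k1 k2 k3 hq1 hq2 hm1 hm2 heq
    obtain ⟨⟨c1, hc1, e1⟩, n1, g1⟩ := k1 ((mk_mem_projVar hP' hq1).1 hm1)
    obtain ⟨⟨c2, hc2, e2⟩, n2, g2⟩ := k2 ((mk_mem_projVar hP' hq2).1 hm2)
    rw [hγp _ hq1 n1 hm1, hγp _ hq2 n2 hm2, Projectivization.mk_eq_mk_iff'] at heq
    obtain ⟨c, hc⟩ := heq
    have k4 := k3 ⟨c, hc.symm⟩
    have k5 : τ' q.1 = τ' q.2 := by rw [← g1, ← g2, k4]
    rw [Projectivization.mk_eq_mk_iff']
    refine ⟨c1 * c2⁻¹, ?_⟩
    rw [k5] at e1
    have e3 : σ' (τ' q.2) = c2⁻¹ • q.2 := by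
      have := congrArg (fun u => c2⁻¹ • u) e2
      simp only [smul_smul, inv_mul_cancel₀ hc2, one_smul] at this
      exact this.symm
    rw [e3, smul_smul] at e1
    exact e1.symm
  · intro y hy hyU
    have hyX : Projectivization.mk ℂ y hy ∈ projVar P' := hyU.1
    obtain ⟨D, γ, hγ, hv, hγp, hinj'⟩ := hp.regular y hy hyX
    have hinj := hinj' hyU
    have hxU : Projectivization.mk ℂ (vals γ y) hv ∈ locVar P G := by
      rw [← hγp y hy hv hyX]
      exact (hp.inv _ hyX).2 hyU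
    have hyc : y ∈ cone P' := (mk_mem_projVar hP' hy).1 hyX
    have hxc : vals γ y ∈ cone P := hcone D γ hγp y hyc hv
    obtain ⟨σ', τ', h', h0'⟩ := exists_isChart hP' hz' hyc (hsm' y hy hyU)
    obtain ⟨σ, τ, h, h0⟩ := exists_isChart hP hz hxc (hsm _ hv hxU)
    have hB := Unr_local hP hP' hp.maps hγp hinj h' h0' h h0
    obtain ⟨ψ, hψ1, hψ2, hψ3, hψ4⟩ := hB.inv
    have hτ0 : τ (vals γ y) = 0 := by
      rw [← h0]
      exact h.left.self_of_nhds
    have hτ : Tendsto τ (𝓝 (vals γ y)) (𝓝 0) := by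
      have h1 := h.τ_an.continuousAt.tendsto
      rwa [h0, hτ0] at h1
    have hψt : Tendsto ψ (𝓝 0) (𝓝 0) := by
      have h1 := hψ1.continuousAt.tendsto
      rwa [hψ2] at h1
    have hq : Tendsto (fun x' => ψ (τ x')) (𝓝 (vals γ y)) (𝓝 0) := hψt.comp hτ
    have hσ't : Tendsto σ' (𝓝 0) (𝓝 y) := by
      have h1 := h'.σ_an.continuousAt.tendsto
      rwa [h0'] at h1
    have hval : Tendsto (fun q => vals γ (σ' q)) (𝓝 0) (𝓝 (σ 0)) := by
      rw [h0]
      exact (Unr_vals_an γ y).continuousAt.tendsto.comp hσ't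
    refine ⟨vals γ y, hv, fun x' => σ' (ψ (τ x')), hγp y hy hv hyX, ?_, ?_, ?_⟩
    · have h1 : AnalyticAt ℂ τ (vals γ y) := by
        rw [← h0]
        exact h.τ_an
      have h2 : AnalyticAt ℂ (fun x' => ψ (τ x')) (vals γ y) := by
        refine AnalyticAt.comp (g := ψ) (f := τ) ?_ h1
        rwa [hτ0]
      refine AnalyticAt.comp (g := σ') (f := fun x' => ψ (τ x')) ?_ h2
      rw [hτ0, hψ2]
      exact h'.σ_an
    · change σ' (ψ (τ (vals γ y))) = y
      rw [hτ0, hψ2, h0']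
    · have hr : ∀ᶠ x' in 𝓝 (vals γ y), x' ∈ cone P → ∃ c : ℂ, c ≠ 0 ∧ x' = c • σ (τ x') := by
        rw [← h0]
        exact h.right
      filter_upwards [hr, hq.eventually h'.σ_mem, hq.eventually (hval.eventually_ne h.ne), hq.eventually (hval.eventually h.right),
        hτ.eventually hψ4] with x' k1 k2 k3 k4 k5 hx' hx'X
      have k6 := (mk_mem_projVar hP' k2.1).2 k2
      refine ⟨k2.1, k6, ?_⟩
      rw [hγp _ k2.1 k3 k6, Projectivization.mk_eq_mk_iff']
      obtain ⟨c, hc, e1⟩ := k1 ((mk_mem_projVar hP hx').1 hx'X)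
      obtain ⟨d, hd, e2⟩ := k4 (hcone D γ hγp _ k2 k3)
      rw [k5] at e2
      refine ⟨d * c⁻¹, ?_⟩
      rw [e2]
      conv_lhs => rw [e1]
      rw [smul_smul, mul_assoc, inv_mul_cancel₀ hc, mul_one]

end Pool.Agent.H62.Qe
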