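import Pool.Agent.H62.Qe.Dom
import Pool.Agent.H62.Qe.Lift
import Pool.Agent.H62.Qe.Ext
import Pool.Agent.H62.Qe.Unr
import Pool.Agent.H13.CV.Strong
import Pool.Agent.H17EF.Four

/-!
# Qe Main: the properties of the Green–Griffiths–Lang conjecture descend along finite etale coverings of quasi-projective surfaces
-/

set_option autoImplicit false

open Topology Filter MvPolynomial

noncomputable section

namespace Pool.Agent.H62.Qe

open Pool.Agent.H17 (PN VanishesAt ZariskiClosedIn HolomorphicInto puncturedDisc vanishesAt_mk_iff)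
open Pool.Agent.H62.FC (Homog)
open Pool.Agent.H17LG.Variety (FunField IsLogGeneralType)
open Pool.Agent.H13.SM (conTan)
open Pool.Agent.H17EF (projVar)
open Pool.Agent.H62.SA (locVar OnBd)
open Pool.Agent.H7.Bir (GGLOpen mem_of_open)

variable {N M : ℕ}

/-- **Etale coverings of quasi-projective surfaces**: the analytic form. -/
theorem etaleOver_open {P : Ideal (MvPolynomial (Fin (N + 1)) ℂ)} [P.IsPrime] {P' : Ideal (MvPolynomial (Fin (M + 1)) ℂ)} [P'.IsPrime]
    (hP : Homog P) (hP' : Homog P') (hz : ∃ z : Fin 2 → FunField P, IsTranscendenceBasis ℂ z)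
    (hz' : ∃ z' : Fin 2 → FunField P', IsTranscendenceBasis ℂ z') {s s' : ℕ}
    {G : Fin s → MvPolynomial (Fin (N + 1)) ℂ} {G' : Fin s' → MvPolynomial (Fin (M + 1)) ℂ} (hG : ∀ m, ∃ n, (G m).IsHomogeneous n)
    {p : PN M → PN N} (hp : IsEtaleOver P P' G G' p) (hgt : IsLogGeneralType (K := FunField P) (k := 2) (OnBd P G)) {Ξ' : Set (PN M)}
    (h : GGLOpen P' G' Ξ') : ∃ Ξ : Set (PN N), GGLOpen P G Ξ := by
  -- a form which vanishes on the exceptional set
  obtain ⟨S, hS, hΞS⟩ := h.closed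
  obtain ⟨y₀, hy₀, R', hR'S, hR'y₀⟩ : ∃ y ∈ locVar P' G', ∃ R ∈ S, ¬ VanishesAt R y := by
    by_contra hcon
    push Not at hcon
    apply h.proper
    rw [hΞS]
    ext y
    exact ⟨fun hy => hy.1, fun hy => ⟨hy, fun R hR => hcon y hy R hR⟩⟩
  obtain ⟨n', hn'⟩ := hS R' hR'S
  have hR'P : R' ∉ P' := fun h1 => hR'y₀ (hy₀.1 R' h1 n' hn')
  have hR'v : ∀ y ∈ Ξ', VanishesAt R' y := by
    intro y hy
    rw [hΞS] at hy
    exact hy.2 R' hR'S
  obtain ⟨T, n, hT, hTP, hTv⟩ := exists_image_form hP hP' (Pool.Agent.H17EF.exists_coord (hp.reg.maps y₀ hy₀.1)) hz hz' hp.reg hn' hR'P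
  have hne : (locVar P G).Nonempty := ⟨p y₀, (hp.inv y₀ hy₀.1).2 hy₀⟩
  -- the exceptional set
  refine ⟨{x | x ∈ locVar P G ∧ VanishesAt T x}, ?_⟩
  have hclosed : ZariskiClosedIn (locVar P G) {x | x ∈ locVar P G ∧ VanishesAt T x} := by
    refine ⟨{T}, fun R hR => ?_, ?_⟩
    · rw [Set.mem_singleton_iff.1 hR]
      exact ⟨n, hT⟩
    · ext x
      constructor
      · rintro ⟨h1, h2⟩
        refine ⟨h1, fun R hR => ?_⟩
        rw [Set.mem_singleton_iff.1 hR]
        exact h2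
      · rintro ⟨h1, h2⟩
        exact ⟨h1, h2 T rfl⟩
  have hbrody : ∀ f : ℂ → PN N, HolomorphicInto f Set.univ → (∀ z, f z ∈ locVar P G) → (∃ z w, f z ≠ f w) →
      ∀ z, f z ∈ {x | x ∈ locVar P G ∧ VanishesAt T x} := by
    intro f hf hfU hfn z
    obtain ⟨g, hg, hgU, hgf⟩ := lift_entire hP' hp hf hfU
    have hgn : ∃ z w, g z ≠ g w := by
      obtain ⟨a, b, hab⟩ := hfn
      refine ⟨a, b, fun h1 => hab ?_⟩
      rw [← hgf a, ← hgf b, h1]
    refine ⟨hfU z, ?_⟩
    rw [← hgf z]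
    exact hTv _ (hgU z).1 (hR'v _ (h.brody g hg hgU hgn z))
  refine ⟨hclosed, ?_, ?_, ?_, hbrody, ?_⟩
  · intro heq
    apply hTP
    refine mem_of_open hP hG hne hT fun x hx => ?_
    rw [← heq] at hx
    exact hx.2
  · intro w _ hw
    obtain rfl := Pool.Agent.H17EF.two_of_basis hz hw
    exact hgt
  · intro f hf hfU hfΞ
    obtain ⟨k, g, hk, hg, hgU, hgf⟩ := lift_punctured hP' hp hf hfU
    have hgΞ : ∃ z ∈ puncturedDisc, g z ∉ Ξ' := by
      by_contra hcon
      push Not at hcon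
      obtain ⟨w, hw, hwΞ⟩ := hfΞ
      apply hwΞ
      refine ⟨hfU w hw, ?_⟩
      obtain ⟨z, hz⟩ := IsAlgClosed.exists_pow_nat_eq w (by omega : 0 < k)
      have hzD : z ∈ puncturedDisc := by
        refine ⟨?_, ?_⟩
        · rw [mem_ball_zero_iff]
          by_contra h1
          push Not at h1
          have h2 : 1 ≤ ‖z‖ ^ k := one_le_pow₀ h1
          rw [← norm_pow, hz] at h2
          have h3 : ‖w‖ < 1 := by
            rw [← mem_ball_zero_iff]
            exact hw.1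
          linarith
        · rintro rfl
          apply hw.2
          rw [Set.mem_singleton_iff, ← hz, zero_pow (by omega)]
      rw [← hz, ← hgf z hzD]
      exact hTv _ (hgU z hzD).1 (hR'v _ (hcon z hzD))
    obtain ⟨ĝ, hĝ, hgg⟩ := h.picard g hg hgU hgΞ
    exact extend_of_lift hp.reg hf hk (fun z hz => (hgU z hz).1) hgf hĝ hgg
  · intro Q _ hQ hPQ hsub w hw hzw
    exact Pool.Agent.H13.CV.strongly_of_brodyL P hP hz hG hclosed hgt hbrody Q hQ hPQ hsub w hw hzw

/-- **Etale coverings of quasi-projective surfaces**: if `U' → U` is a finite etale covering of smooth quasi-projective surfaces (the restriction over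
the open set `U` of a surjective regular map of projective surfaces) and `U'` has the four properties, then `U` has the four properties if it is of log
general type. -/
theorem etale_open {P : Ideal (MvPolynomial (Fin (N + 1)) ℂ)} [P.IsPrime] {P' : Ideal (MvPolynomial (Fin (M + 1)) ℂ)} [P'.IsPrime]
    (hP : Homog P) (hP' : Homog P') (hz : ∃ z : Fin 2 → FunField P, IsTranscendenceBasis ℂ z)
    (hz' : ∃ z' : Fin 2 → FunField P', IsTranscendenceBasis ℂ z') {s s' : ℕ}
    {G : Fin s → MvPolynomial (Fin (N + 1)) ℂ} {G' : Fin s' → MvPolynomial (Fin (M + 1)) ℂ} (hG : ∀ m, ∃ n, (G m).IsHomogeneous n)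
    (hsm : ∀ (y : Fin (N + 1) → ℂ) (hy : y ≠ 0), Projectivization.mk ℂ y hy ∈ locVar P G → Module.finrank ℂ (conTan P y) ≤ 3)
    (hsm' : ∀ (y : Fin (M + 1) → ℂ) (hy : y ≠ 0), Projectivization.mk ℂ y hy ∈ locVar P' G' → Module.finrank ℂ (conTan P' y) ≤ 3)
    {p : PN M → PN N} (hp : IsUnramifiedOver P P' G G' p) (hgt : IsLogGeneralType (K := FunField P) (k := 2) (OnBd P G)) {Ξ' : Set (PN M)}
    (h : GGLOpen P' G' Ξ') : ∃ Ξ : Set (PN N), GGLOpen P G Ξ := by
  obtain ⟨z, hz1⟩ := hz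
  obtain ⟨z', hz1'⟩ := hz'
  exact etaleOver_open hP hP' ⟨z, hz1⟩ ⟨z', hz1'⟩ hG (isEtaleOver_of_isUnramifiedOver hP hP' hz1 hz1' hsm hsm' hp) hgt h

end Pool.Agent.H62.Qe
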