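import Mathlib

/-!
# Qe TopQ: maps which are local homeomorphisms over an open set, and lifts of continuous maps
-/

set_option autoImplicit false

open Topology Filter

namespace Pool.Agent.H62.Qe

/-- A continuous map which is injective near `e` and has a local section through `e` is a homeomorphism near `e`. -/
theorem exists_localHomeo {E Y : Type} [TopologicalSpace E] [TopologicalSpace Y] {p : E → Y} (hp : Continuous p) {e : E}
    (hinj : ∀ᶠ q in 𝓝 (e, e), p q.1 = p q.2 → q.1 = q.2)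
    (hsec : ∃ s : Y → E, s (p e) = e ∧ ∀ᶠ y in 𝓝 (p e), ContinuousAt s y ∧ p (s y) = y) :
    ∃ φ : OpenPartialHomeomorph E Y, e ∈ φ.source ∧ p = φ := by
  obtain ⟨s, hse, hs⟩ := hsec
  obtain ⟨V, hVs, hVo, heV⟩ := eventually_nhds_iff.1 hs
  have h1 : {q : E × E | p q.1 = p q.2 → q.1 = q.2} ∈ 𝓝 e ×ˢ 𝓝 e := by
    rw [← nhds_prod_eq]
    exact hinj
  obtain ⟨U₁, hU₁, hU₁s⟩ := Filter.mem_prod_self_iff.1 h1
  obtain ⟨U, hUU₁, hUo, heU⟩ := mem_nhds_iff.1 hU₁
  have hU : ∀ e₁ ∈ U, ∀ e₂ ∈ U, p e₁ = p e₂ → e₁ = e₂ := fun e₁ h₁ e₂ h₂ => hU₁s (Set.mk_mem_prod (hUU₁ h₁) (hUU₁ h₂))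
  have hsV : ContinuousOn s V := fun y hy => (hVs y hy).1.continuousWithinAt
  have hW : IsOpen (V ∩ s ⁻¹' U) := hsV.isOpen_inter_preimage hVo hUo
  have hU₀ : IsOpen (U ∩ p ⁻¹' (V ∩ s ⁻¹' U)) := hUo.inter (hW.preimage hp)
  have hleft : ∀ e' ∈ U ∩ p ⁻¹' (V ∩ s ⁻¹' U), s (p e') = e' := fun e' he' =>
    hU _ he'.2.2 _ he'.1 (hVs _ he'.2.1).2
  refine ⟨
    { toFun := p
      invFun := s
      source := U ∩ p ⁻¹' (V ∩ s ⁻¹' U)
      target := V ∩ s ⁻¹' U
      map_source' := fun e' he' => he'.2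
      map_target' := fun y hy => by
        refine ⟨hy.2, ?_⟩
        show p (s y) ∈ V ∩ s ⁻¹' U
        rw [(hVs y hy.1).2]
        exact hy
      left_inv' := hleft
      right_inv' := fun y hy => (hVs y hy.1).2
      open_source := hU₀
      open_target := hW
      continuousOn_toFun := hp.continuousOn
      continuousOn_invFun := hsV.mono Set.inter_subset_left }, ?_, rfl⟩
  refine ⟨heU, heV, ?_⟩
  show s (p e) ∈ U
  rw [hse]
  exact heU

variable {E Y : Type} [TopologicalSpace E] [TopologicalSpace Y] [T2Space E] [T2Space Y] [CompactSpace E] {p : E → Y}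

/-- Existence and uniqueness of the lifts of maps of the plane. -/
theorem exists_unique_lift (hp : Continuous p) {s : Set Y}
    (h : ∀ e : E, p e ∈ s → ∃ φ : OpenPartialHomeomorph E Y, e ∈ φ.source ∧ p = φ)
    {f : ℂ → Y} (hf : Continuous f) (hfs : ∀ z, f z ∈ s) {a : ℂ} {e₀ : E} (he : p e₀ = f a) :
    ∃! F : C(ℂ, E), F a = e₀ ∧ p ∘ F = f := by
  have hl : IsLocalHomeomorphOn p (p ⁻¹' s) := fun e he => h e he
  have hc : IsCoveringMapOn p s := IsCoveringMapOn.of_isLocalHomeomorphOn hp hl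
  exact hc.existsUnique_continuousMap_lifts (⟨f, hf⟩ : C(ℂ, Y)) he hfs

/-- Lifts of maps of the plane. -/
theorem exists_lift_plane (hp : Continuous p) {s : Set Y}
    (h : ∀ e : E, p e ∈ s → ∃ φ : OpenPartialHomeomorph E Y, e ∈ φ.source ∧ p = φ)
    {f : ℂ → Y} (hf : Continuous f) (hfs : ∀ z, f z ∈ s) {a : ℂ} {e₀ : E} (he : p e₀ = f a) :
    ∃ g : ℂ → E, Continuous g ∧ g a = e₀ ∧ ∀ z, p (g z) = f z := by
  obtain ⟨F, ⟨h1, hF⟩, -⟩ := exists_unique_lift hp h hf hfs he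
  exact ⟨F, F.continuous, h1, fun z => congrFun hF z⟩

/-- Two lifts which agree at a point are equal. -/
theorem lift_unique (hp : Continuous p) {s : Set Y}
    (h : ∀ e : E, p e ∈ s → ∃ φ : OpenPartialHomeomorph E Y, e ∈ φ.source ∧ p = φ)
    {f : ℂ → Y} (hf : Continuous f) (hfs : ∀ z, f z ∈ s) {g g' : ℂ → E} (hg : Continuous g) (hg' : Continuous g')
    (h1 : ∀ z, p (g z) = f z) (h2 : ∀ z, p (g' z) = f z) {a : ℂ} (ha : g a = g' a) (z : ℂ) : g z = g' z := by
  have h3 := (exists_unique_lift hp h hf hfs (h1 a)).unique (y₁ := (⟨g, hg⟩ : C(ℂ, E))) (y₂ := (⟨g', hg'⟩ : C(ℂ, E)))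
    ⟨rfl, funext h1⟩ ⟨ha.symm, funext h2⟩
  exact congrArg (fun F : C(ℂ, E) => F z) h3

omit [T2Space E] in
/-- The fibres are finite. -/
theorem finite_fibre (hp : Continuous p) {s : Set Y}
    (h : ∀ e : E, p e ∈ s → ∃ φ : OpenPartialHomeomorph E Y, e ∈ φ.source ∧ p = φ) {y : Y} (hy : y ∈ s) :
    (p ⁻¹' {y}).Finite := by
  refine (isClosed_singleton.preimage hp).isCompact.finite (IsDiscrete.of_openPartialHomeomorph p subset_rfl fun e he => ?_)
  obtain ⟨φ, h1, h2⟩ := h e (by rw [show p e = y from he]; exact hy)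
  exact ⟨φ, h1, h2.symm⟩

/-- **Periodic lifts.**  A periodic map has a lift which is periodic for a multiple of the period. -/
theorem exists_lift_periodic (hp : Continuous p) (hsu : Function.Surjective p) {s : Set Y}
    (h : ∀ e : E, p e ∈ s → ∃ φ : OpenPartialHomeomorph E Y, e ∈ φ.source ∧ p = φ)
    {f : ℂ → Y} (hf : Continuous f) (hfs : ∀ z, f z ∈ s) {c : ℂ} (hfc : ∀ z, f (z + c) = f z) :
    ∃ (g : ℂ → E) (k : ℕ), Continuous g ∧ (∀ z, p (g z) = f z) ∧ 1 ≤ k ∧ ∀ z, g (z + k * c) = g z := by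
  obtain ⟨e₀, he₀⟩ := hsu (f 0)
  obtain ⟨g, hg, -, hgf⟩ := exists_lift_plane hp h hf hfs he₀
  have hper : ∀ (n : ℕ) (z : ℂ), f (z + n * c) = f z := by
    intro n
    induction n with
    | zero => intro z; simp
    | succ n ih =>
      intro z
      rw [← hfc z, ← ih (z + c)]
      congr 1
      push_cast
      ring
  have hfin : (p ⁻¹' {f 0}).Finite := finite_fibre hp h (hfs 0)
  have hmaps : ∀ n : ℕ, g (n * c) ∈ p ⁻¹' {f 0} := by
    intro n
    have h1 := hper n 0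
    rw [zero_add] at h1
    change p (g (n * c)) = f 0
    rw [hgf, h1]
  obtain ⟨m, n, hmn, hval⟩ : ∃ m n : ℕ, m < n ∧ g (m * c) = g (n * c) := by
    have : ¬ Function.Injective fun n : ℕ => (⟨g (n * c), hmaps n⟩ : (p ⁻¹' {f 0})) := by
      intro hinj
      have := hfin.to_subtype
      exact not_injective_infinite_finite _ hinj
    rw [Function.not_injective_iff] at this
    obtain ⟨a, b, hab, hne⟩ := this
    have hab' : g (a * c) = g (b * c) := congrArg Subtype.val hab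
    rcases lt_or_gt_of_ne hne with hlt | hlt
    · exact ⟨a, b, hlt, hab'⟩
    · exact ⟨b, a, hlt, hab'.symm⟩
  refine ⟨g, n - m, hg, hgf, by omega, fun z => ?_⟩
  have hgn : ∀ q : ℕ, Continuous fun z => g (z + q * c) := fun q => hg.comp (continuous_id.add continuous_const)
  have h3 : ∀ z, g (z + m * c) = g (z + n * c) := by
    intro z
    refine lift_unique hp h hf hfs (hgn m) (hgn n) (fun z => ?_) (fun z => ?_) (a := 0) ?_ z
    · rw [hgf, hper]
    · rw [hgf, hper]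
    · simpa using hval
  have h4 := h3 (z - m * c)
  rw [sub_add_cancel] at h4
  rw [h4]
  congr 1
  rw [Nat.cast_sub hmn.le]
  ring

end Pool.Agent.H62.Qe
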