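import Pool.Agent.H62.Et.Hat
import Pool.Agent.H62.Qe.Defs
import Pool.Agent.H62.Qe.TopQ

/-!
# Qe Loc: a map which is etale over an open subset is a local homeomorphism over it (adapted from `Pool.Agent.H62.Et.Loc`)
-/

set_option autoImplicit false

open Topology Filter MvPolynomial

noncomputable section

namespace Pool.Agent.H62.Qe

open Pool.Agent.H17 (PN VanishesAt HolomorphicInto)
open Pool.Agent.H62.FC (Homog)
open Pool.Agent.H17EF (projVar LE)
open Pool.Agent.H7.Bir (vals rmap)
open Pool.Agent.H62.EF (MN pr)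
open Pool.Agent.H62.SA (locVar)
open Pool.Agent.H62.Et (pn pn_mk pn_injective pn_near pn_continuousAt pn_continuous isCompact_pn)

variable {N M : ℕ} {P : Ideal (MvPolynomial (Fin (N + 1)) ℂ)} {P' : Ideal (MvPolynomial (Fin (M + 1)) ℂ)} {p : PN M → PN N}

/-- the product of a matrix with a vector -/
private def mA (x₀ : Fin (N + 1) → ℂ) (m : MN N) : Fin (N + 1) → ℂ := fun i => ∑ j, m (i, j) * x₀ j

/-- the scalar product of `x₀` with the product of the matrix with `x₀` -/
private def mB (x₀ : Fin (N + 1) → ℂ) (m : MN N) : ℂ := ∑ i, (starRingEnd ℂ) (x₀ i) * mA x₀ m i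

private def sA (x₀ x : Fin (N + 1) → ℂ) : ℂ := ∑ i, (starRingEnd ℂ) (x₀ i) * x i

private theorem continuous_mA (x₀ : Fin (N + 1) → ℂ) : Continuous (mA x₀) := by
  refine continuous_pi fun i => ?_
  refine continuous_finsetSum _ fun j _ => ?_
  exact (PiLp.continuous_apply 2 _ (i, j)).mul continuous_const

private theorem continuous_mB (x₀ : Fin (N + 1) → ℂ) : Continuous (mB x₀) := by
  refine continuous_finsetSum _ fun i _ => ?_
  exact continuous_const.mul ((continuous_apply i).comp (continuous_mA x₀))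

private theorem sA_self (x : Fin (N + 1) → ℂ) : sA x x = ((‖(LE N) x‖ ^ 2 : ℝ) : ℂ) := by
  rw [EuclideanSpace.norm_sq_eq, sA, Complex.ofReal_sum]
  refine Finset.sum_congr rfl fun i _ => ?_
  rw [Complex.conj_mul']
  push_cast
  rfl

private theorem sA_self_ne {x : Fin (N + 1) → ℂ} (hx : x ≠ 0) : sA x x ≠ 0 := by
  rw [sA_self]
  have h1 : (LE N) x ≠ 0 := fun h => hx ((LE N).map_eq_zero_iff.mp h)
  have h2 : ‖(LE N) x‖ ≠ 0 := norm_ne_zero_iff.mpr h1
  exact_mod_cast pow_ne_zero 2 h2

private theorem sA_conj (x y : Fin (N + 1) → ℂ) : (starRingEnd ℂ) (sA x y) = sA y x := by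
  unfold sA
  rw [map_sum]
  refine Finset.sum_congr rfl fun i _ => ?_
  rw [map_mul, Complex.conj_conj]
  ring

private theorem mA_pr (x₀ x : Fin (N + 1) → ℂ) : mA x₀ (pr ((LE N) x)) = (sA x x₀ / sA x x) • x := by
  funext i
  rw [sA_self]
  simp only [mA, Pi.smul_apply, smul_eq_mul]
  rw [div_mul_eq_mul_div, sA, Finset.sum_mul, Finset.sum_div]
  refine Finset.sum_congr rfl fun j _ => ?_
  have h1 : (pr ((LE N) x)) (i, j) = x i * (starRingEnd ℂ) (x j) / ((‖(LE N) x‖ ^ 2 : ℝ) : ℂ) := rfl
  rw [h1]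
  ring

private theorem mB_pr (x₀ x : Fin (N + 1) → ℂ) : mB x₀ (pr ((LE N) x)) = sA x x₀ / sA x x * sA x₀ x := by
  rw [mB, mA_pr]
  rw [show sA x₀ x = ∑ i, (starRingEnd ℂ) (x₀ i) * x i from rfl, Finset.mul_sum]
  refine Finset.sum_congr rfl fun i _ => ?_
  rw [Pi.smul_apply, smul_eq_mul]
  ring

/-- a representative of the line depending continuously on the matrix -/
private theorem exists_nu {x₀ : Fin (N + 1) → ℂ} (hx₀ : x₀ ≠ 0) : ∃ ν : MN N → Fin (N + 1) → ℂ,
    ν (pn (Projectivization.mk ℂ x₀ hx₀)) = x₀ ∧ ∀ᶠ m in 𝓝 (pn (Projectivization.mk ℂ x₀ hx₀)), ContinuousAt ν m ∧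
      ∀ y : PN N, pn y = m → ∃ h : ν m ≠ 0, y = Projectivization.mk ℂ (ν m) h := by
  have hS := sA_self_ne hx₀
  refine ⟨fun m => (sA x₀ x₀ / mB x₀ m) • mA x₀ m, ?_, ?_⟩
  · show (sA x₀ x₀ / mB x₀ _) • mA x₀ _ = x₀
    rw [pn_mk, mA_pr, mB_pr, div_self hS, one_mul, one_smul, div_self hS, one_smul]
  · have h1 : mB x₀ (pn (Projectivization.mk ℂ x₀ hx₀)) ≠ 0 := by
      rw [pn_mk, mB_pr, div_self hS, one_mul]
      exact hS
    filter_upwards [(continuous_mB x₀).continuousAt.eventually_ne h1] with m hm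
    refine ⟨?_, fun y hy => ?_⟩
    · exact (continuousAt_const.div (continuous_mB x₀).continuousAt hm).smul (continuous_mA x₀).continuousAt
    · have h2 : m = pr ((LE N) y.rep) := hy.symm
      have h3 : sA y.rep x₀ / sA y.rep y.rep ≠ 0 := by
        intro h
        rw [h2, mB_pr, h, zero_mul] at hm
        exact hm rfl
      have h5 : (sA x₀ x₀ / mB x₀ m) * (sA y.rep x₀ / sA y.rep y.rep) ≠ 0 := mul_ne_zero (div_ne_zero hS hm) h3
      have h6 : (sA x₀ x₀ / mB x₀ m) • mA x₀ m = ((sA x₀ x₀ / mB x₀ m) * (sA y.rep x₀ / sA y.rep y.rep)) • y.rep := by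
        rw [mul_smul, ← mA_pr, ← h2]
      have h7 : (sA x₀ x₀ / mB x₀ m) • mA x₀ m ≠ 0 := by
        rw [h6]
        exact smul_ne_zero h5 y.rep_nonzero
      refine ⟨h7, ?_⟩
      rw [← Projectivization.mk_rep y, Projectivization.mk_eq_mk_iff']
      refine ⟨((sA x₀ x₀ / mB x₀ m) * (sA y.rep x₀ / sA y.rep y.rep))⁻¹, ?_⟩
      show _ • ((sA x₀ x₀ / mB x₀ m) • mA x₀ m) = _
      rw [h6, smul_smul, inv_mul_cancel₀ h5, one_smul]

/-- the covering as a map of subsets of matrix spaces -/
theorem exists_hat {s s' : ℕ} {G : Fin s → MvPolynomial (Fin (N + 1)) ℂ} {G' : Fin s' → MvPolynomial (Fin (M + 1)) ℂ}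
    (hp : IsEtaleOver P P' G G' p) : ∃ ph : (pn '' projVar P') → (pn '' projVar P),
    (∀ (y : PN M) (hy : y ∈ projVar P'), ph ⟨pn y, Set.mem_image_of_mem pn hy⟩ = ⟨pn (p y), Set.mem_image_of_mem pn (hp.reg.maps y hy)⟩) ∧
      Continuous ph ∧ Function.Surjective ph ∧ ∀ e, (ph e : MN N) ∈ pn '' locVar P G →
        ∃ φ : OpenPartialHomeomorph (pn '' projVar P') (pn '' projVar P), e ∈ φ.source ∧ ph = φ := by
  classical
  -- the point of a matrix
  choose Y hY hYe using fun m : (pn '' projVar P') => m.2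
  have hYpn : ∀ (y : PN M) (hy : y ∈ projVar P'), Y ⟨pn y, Set.mem_image_of_mem pn hy⟩ = y := fun y hy =>
    pn_injective (hYe ⟨pn y, Set.mem_image_of_mem pn hy⟩)
  let ph : (pn '' projVar P') → (pn '' projVar P) := fun m => ⟨pn (p (Y m)), Set.mem_image_of_mem pn (hp.reg.maps _ (hY m))⟩
  have hph : ∀ (y : PN M) (hy : y ∈ projVar P'), ph ⟨pn y, Set.mem_image_of_mem pn hy⟩ = ⟨pn (p y), Set.mem_image_of_mem pn (hp.reg.maps y hy)⟩ := by
    intro y hy
    apply Subtype.ext
    show pn (p (Y _)) = pn (p y)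
    rw [hYpn y hy]
  -- the representatives near a point of the covering
  have hνE : ∀ e : (pn '' projVar P'), ∃ ν : (pn '' projVar P') → Fin (M + 1) → ℂ, ν e = (Y e).rep ∧ ContinuousAt ν e ∧
      ∀ᶠ b in 𝓝 e, ∃ h : ν b ≠ 0, Y b = Projectivization.mk ℂ (ν b) h := by
    intro e
    obtain ⟨ν, h1, h2⟩ := exists_nu (Y e).rep_nonzero
    rw [Projectivization.mk_rep, hYe e] at h1 h2
    refine ⟨fun b => ν b, h1, ?_, ?_⟩
    · exact ContinuousAt.comp (f := Subtype.val) (g := ν) h2.self_of_nhds.1 continuousAt_subtype_val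
    · have h3 : Tendsto (Subtype.val : (pn '' projVar P') → MN M) (𝓝 e) (𝓝 (e : MN M)) := continuousAt_subtype_val
      filter_upwards [h3.eventually h2] with b hb
      exact hb.2 (Y b) (hYe b)
  have hcont : Continuous ph := by
    · -- continuity
      rw [continuous_iff_continuousAt]
      intro e
      rw [Topology.IsInducing.subtypeVal.continuousAt_iff]
      obtain ⟨ν, h1, h2, h3⟩ := hνE e
      obtain ⟨D, γ, hγ, hγ0, hγe⟩ := hp.reg.regular (Y e) (hY e)
      have hc : Continuous fun x : Fin (M + 1) → ℂ => vals γ x := by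
        refine continuous_pi fun i => ?_
        exact MvPolynomial.continuous_eval (γ i)
      have h4 : ContinuousAt (fun b => vals γ (ν b)) e := ContinuousAt.comp (g := vals γ) hc.continuousAt h2
      have h5 : ∀ᶠ b in 𝓝 e, vals γ (ν b) ≠ 0 := h4.eventually_ne (by rw [h1]; exact hγ0)
      refine pn_continuousAt (f := fun b => p (Y b)) h4 ?_
      filter_upwards [h3, h5] with b hb1 hb2
      obtain ⟨hb3, hb4⟩ := hb1
      refine ⟨hb2, ?_⟩
      obtain ⟨a, ha⟩ := Projectivization.exists_smul_eq_mk_rep ℂ (ν b) hb3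
      have h6 : vals γ (Y b).rep ≠ 0 := by
        rw [hb4, ← ha]
        show vals γ ((a : ℂ) • ν b) ≠ 0
        rw [Pool.Agent.H7.Bir.vals_smul hγ]
        exact smul_ne_zero (pow_ne_zero _ a.ne_zero) hb2
      show p (Y b) = _
      rw [hγe (Y b) (hY b) h6, hb4, Pool.Agent.H7.Bir.rmap_mk hγ hb3 hb2]
  refine ⟨ph, hph, hcont, ?_, fun e he => ?_⟩
  rotate_left
  · have heU : Y e ∈ locVar P' G' := by
      refine (hp.inv _ (hY e)).1 ?_
      obtain ⟨x, hx, hxe⟩ := he
      have h1 : x = p (Y e) := pn_injective hxe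
      rw [← h1]
      exact hx
    apply exists_localHomeo hcont
    · -- local injectivity
      obtain ⟨ν, h1, h2, h3⟩ := hνE e
      have hmem : Projectivization.mk ℂ (Y e).rep (Y e).rep_nonzero ∈ locVar P' G' := by
        rw [Projectivization.mk_rep]
        exact heU
      have h4 := hp.locInj (Y e).rep (Y e).rep_nonzero hmem
      have h5 : Tendsto (fun q : (pn '' projVar P') × (pn '' projVar P') => (ν q.1, ν q.2)) (𝓝 (e, e)) (𝓝 ((Y e).rep, (Y e).rep)) := by
        have h6 : ContinuousAt (fun q : (pn '' projVar P') × (pn '' projVar P') => (ν q.1, ν q.2)) (e, e) := by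
          refine ContinuousAt.prodMk ?_ ?_
          · exact ContinuousAt.comp (f := Prod.fst) (g := ν) (x := (e, e)) h2 continuousAt_fst
          · exact ContinuousAt.comp (f := Prod.snd) (g := ν) (x := (e, e)) h2 continuousAt_snd
        have h7 := h6.tendsto
        simp only [h1] at h7
        exact h7
      have h8 : ∀ᶠ q : (pn '' projVar P') × (pn '' projVar P') in 𝓝 (e, e), ∃ h : ν q.1 ≠ 0, Y q.1 = Projectivization.mk ℂ (ν q.1) h :=
        (continuousAt_fst (p := ((e, e) : (pn '' projVar P') × (pn '' projVar P')))).tendsto.eventually h3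
      have h9 : ∀ᶠ q : (pn '' projVar P') × (pn '' projVar P') in 𝓝 (e, e), ∃ h : ν q.2 ≠ 0, Y q.2 = Projectivization.mk ℂ (ν q.2) h :=
        (continuousAt_snd (p := ((e, e) : (pn '' projVar P') × (pn '' projVar P')))).tendsto.eventually h3
      filter_upwards [h5.eventually h4, h8, h9] with q hq1 hq2 hq3 hq4
      obtain ⟨h10, h11⟩ := hq2
      obtain ⟨h12, h13⟩ := hq3
      have h14 : p (Y q.1) = p (Y q.2) := pn_injective (congrArg Subtype.val hq4)
      have h15 := hq1 h10 h12 (by rw [← h11]; exact hY q.1) (by rw [← h13]; exact hY q.2) (by rw [← h11, ← h13]; exact h14)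
      apply Subtype.ext
      rw [← hYe q.1, ← hYe q.2, h11, h13]
      exact congrArg pn h15
    · -- sections
      have hmem : Projectivization.mk ℂ (Y e).rep (Y e).rep_nonzero ∈ locVar P' G' := by
        rw [Projectivization.mk_rep]
        exact heU
      obtain ⟨x, hx, τ, h1, h2, h3, h4⟩ := hp.locSec (Y e).rep (Y e).rep_nonzero hmem
      rw [Projectivization.mk_rep] at h1
      obtain ⟨ν, h5, h6⟩ := exists_nu hx
      rw [← h1] at h5 h6
      -- near the image
      have hpe : (ph e : MN N) = pn (p (Y e)) := rfl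
      have h7 : ∀ᶠ m in 𝓝 (ph e : MN N), ContinuousAt ν m ∧ (∀ y : PN N, pn y = m → ∃ h : ν m ≠ 0, y = Projectivization.mk ℂ (ν m) h) ∧
          ContinuousAt τ (ν m) ∧ ∀ h : ν m ≠ 0, Projectivization.mk ℂ (ν m) h ∈ projVar P →
            ∃ h' : τ (ν m) ≠ 0, Projectivization.mk ℂ (τ (ν m)) h' ∈ projVar P' ∧ p (Projectivization.mk ℂ (τ (ν m)) h') = Projectivization.mk ℂ (ν m) h := by
        rw [hpe]
        have h8 : Tendsto ν (𝓝 (pn (p (Y e)))) (𝓝 x) := by
          have := h6.self_of_nhds.1.tendsto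
          rw [h5] at this
          exact this
        filter_upwards [h6, h8.eventually h2.eventually_analyticAt, h8.eventually h4] with m hm1 hm2 hm3
        exact ⟨hm1.1, hm1.2, hm2.continuousAt, hm3⟩
      -- the statement for the points of the image
      have h8 : ∀ᶠ b in 𝓝 (ph e), ContinuousAt (fun b : (pn '' projVar P) => τ (ν b)) b ∧
          ∃ h' : τ (ν b) ≠ 0, Projectivization.mk ℂ (τ (ν b)) h' ∈ projVar P' ∧ pn (p (Projectivization.mk ℂ (τ (ν b)) h')) = b := by
        have h9 : Tendsto (Subtype.val : (pn '' projVar P) → MN N) (𝓝 (ph e)) (𝓝 (ph e : MN N)) := continuousAt_subtype_val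
        filter_upwards [h9.eventually h7] with b hb
        obtain ⟨hb1, hb2, hb3, hb4⟩ := hb
        obtain ⟨y, hy, hyb⟩ := b.2
        obtain ⟨hb5, hb6⟩ := hb2 y hyb
        obtain ⟨hb7, hb8, hb9⟩ := hb4 hb5 (by rw [← hb6]; exact hy)
        refine ⟨?_, hb7, hb8, ?_⟩
        · have hb10 : ContinuousAt (fun b : (pn '' projVar P) => ν b) b := ContinuousAt.comp (f := Subtype.val) (g := ν) hb1 continuousAt_subtype_val
          exact ContinuousAt.comp (f := fun b : (pn '' projVar P) => ν b) (g := τ) hb3 hb10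
        · rw [hb9, ← hb6]
          exact hyb
      -- the section
      let s : (pn '' projVar P) → (pn '' projVar P') := fun b =>
        if h : ∃ h' : τ (ν b) ≠ 0, Projectivization.mk ℂ (τ (ν b)) h' ∈ projVar P' then
          ⟨pn (Projectivization.mk ℂ (τ (ν b)) h.choose), Set.mem_image_of_mem pn h.choose_spec⟩ else e
      have hs : ∀ b : (pn '' projVar P), ∀ (h : τ (ν b) ≠ 0) (h' : Projectivization.mk ℂ (τ (ν b)) h ∈ projVar P'),
          s b = ⟨pn (Projectivization.mk ℂ (τ (ν b)) h), Set.mem_image_of_mem pn h'⟩ := by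
        intro b h h'
        simp only [s]
        rw [dif_pos ⟨h, h'⟩]
      refine ⟨s, ?_, ?_⟩
      · have h10 : τ (ν (ph e)) = (Y e).rep := by
          rw [hpe, h5, h3]
        have h11 : τ (ν (ph e)) ≠ 0 := by
          rw [h10]
          exact (Y e).rep_nonzero
        have h12 : Projectivization.mk ℂ (τ (ν (ph e))) h11 = Y e := by
          rw [← Projectivization.mk_rep (Y e), Projectivization.mk_eq_mk_iff']
          exact ⟨1, by rw [one_smul, h10]⟩
        rw [hs (ph e) h11 (by rw [h12]; exact hY e)]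
        apply Subtype.ext
        show pn _ = (e : MN M)
        rw [h12, hYe e]
      · filter_upwards [h8.eventually_nhds] with b hb
        refine ⟨?_, ?_⟩
        · rw [Topology.IsInducing.subtypeVal.continuousAt_iff]
          obtain ⟨hb1, hb2, hb3, hb4⟩ := hb.self_of_nhds
          let F : (pn '' projVar P) → PN M := fun b' =>
            if h : ∃ h' : τ (ν b') ≠ 0, Projectivization.mk ℂ (τ (ν b')) h' ∈ projVar P' then Projectivization.mk ℂ (τ (ν b')) h.choose else Y e
          have hF : (Subtype.val ∘ s) = fun b' => pn (F b') := by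
            funext b'
            simp only [Function.comp, s, F]
            split_ifs with h
            · rfl
            · exact (hYe e).symm
          rw [hF]
          refine pn_continuousAt hb1 ?_
          filter_upwards [hb] with b' hb'
          obtain ⟨hb5, hb6, hb7, hb8⟩ := hb'
          refine ⟨hb6, ?_⟩
          simp only [F]
          rw [dif_pos ⟨hb6, hb7⟩]
        · obtain ⟨hb1, hb2, hb3, hb4⟩ := hb.self_of_nhds
          rw [hs b hb2 hb3, hph _ hb3]
          apply Subtype.ext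
          exact hb4
  · rintro ⟨m, x, hx, rfl⟩
    obtain ⟨y, hy, hyx⟩ := hp.reg.surj x hx
    refine ⟨⟨pn y, Set.mem_image_of_mem pn hy⟩, ?_⟩
    rw [hph y hy]
    apply Subtype.ext
    show pn (p y) = pn x
    rw [hyx]

end Pool.Agent.H62.Qe
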